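import Pool.Agent.V8H99.AD.Final

/-! From operators on `ℓ²(ℤ^d)` to functions on `ℤ^d`. -/

set_option autoImplicit false
set_option linter.unusedSectionVars false

open scoped BigOperators ENNReal
open MeasureTheory

namespace Pool.Agent.V8H99.AD

open Pool.Agent.H4R2.AE

variable {d : ℕ}

/-- `-Δ + λ ω` on functions -/
noncomputable def HF (lam : ℝ) (ω : (Fin d → ℤ) → ℝ) (u : (Fin d → ℤ) → ℂ) (x : Fin d → ℤ) : ℂ :=
  ∑ i : Fin d, (2 * u x - u (x + Pi.single i 1) - u (x - Pi.single i 1)) +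
    ((lam * ω x : ℝ) : ℂ) * u x

theorem HF_pow {lam : ℝ} {ω : (Fin d → ℤ) → ℝ} {H : L2 d →L[ℂ] L2 d} (hH : IsAnderson lam ω H)
    (f : L2 d) (n : ℕ) : (((H ^ n) f : L2 d) : (Fin d → ℤ) → ℂ) = (HF lam ω)^[n] (f : (Fin d → ℤ) → ℂ) := by
  induction n with
  | zero => rfl
  | succ n ih =>
    have e1 : (H ^ (n + 1)) f = H ((H ^ n) f) := by
      rw [pow_succ']
      rfl
    rw [e1, Function.iterate_succ_apply', ← ih]
    funext x
    exact hH _ x

theorem evo_hasSum {lam : ℝ} {ω : (Fin d → ℤ) → ℝ} {H : L2 d →L[ℂ] L2 d}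
    (hH : IsAnderson lam ω H) (f : L2 d) (t : ℝ) (x : Fin d → ℤ) :
    HasSum (fun n : ℕ => (-(t : ℂ) * Complex.I) ^ n / n.factorial * (HF lam ω)^[n] (f : (Fin d → ℤ) → ℂ) x)
      ((ev H t f : L2 d) x) := by
  have h1 : HasSum (fun n : ℕ => ((n.factorial : ℂ)⁻¹) • ((-(t : ℂ) * Complex.I) • H) ^ n)
      (ev H t) :=
    NormedSpace.exp_series_hasSum_exp' (𝕂 := ℂ) ((-(t : ℂ) * Complex.I) • H)
  have h2 : HasSum (fun n : ℕ => ((((n.factorial : ℂ)⁻¹) • ((-(t : ℂ) * Complex.I) • H) ^ n) f : L2 d))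
      (ev H t f) := h1.mapL (ContinuousLinearMap.apply ℂ (L2 d) f)
  -- evaluation at `x`
  obtain ⟨ev1, hev⟩ : ∃ T : L2 d →L[ℂ] ℂ, ∀ g, T g = g x := by
    refine ⟨LinearMap.mkContinuous
      { toFun := fun g => g x
        map_add' := fun g g' => by simp
        map_smul' := fun c g => by simp } 1 (fun g => ?_), fun g => rfl⟩
    rw [one_mul]
    exact lp.norm_apply_le_norm (by norm_num) g x
  have h3 := h2.mapL ev1
  rw [hev] at h3
  convert h3 using 1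
  funext n
  simp only [hev]
  rw [← HF_pow hH f n, smul_pow, smul_smul, smul_apply, lp.coeFn_smul, Pi.smul_apply, smul_eq_mul]
  congr 1
  ring

/-- a finitely supported function as an element of `ℓ²` -/
theorem exists_l2 (u : (Fin d → ℤ) → ℂ) (hu : (Function.support u).Finite) :
    ∃ f : L2 d, (f : (Fin d → ℤ) → ℂ) = u := by
  have h : Memℓp u (2 : ℝ≥0∞) := by
    refine memℓp_gen ?_
    refine summable_of_hasFiniteSupport ?_
    refine hu.subset fun x hx => ?_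
    intro h0
    apply hx
    simp [h0]
  exact ⟨⟨u, h⟩, rfl⟩

theorem box_finite (u : (Fin d → ℤ) → ℂ) (R : ℝ) (hu : ∀ x, u x ≠ 0 → ∀ i, (|x i| : ℝ) ≤ R) :
    (Function.support u).Finite := by
  have h : (Set.pi Set.univ fun _ : Fin d => Set.Icc (-⌈R⌉) ⌈R⌉).Finite :=
    Set.Finite.pi fun _ => Set.finite_Icc _ _
  refine h.subset fun x hx i _ => ?_
  have h1 := hu x hx i
  have h2 : (|x i| : ℝ) ≤ ⌈R⌉ := h1.trans (Int.le_ceil R)
  have h3 : |x i| ≤ ⌈R⌉ := by exact_mod_cast h2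
  exact abs_le.1 h3

theorem nsq_eq (f : L2 d) : ∑' x, ‖f x‖ ^ 2 = ‖f‖ ^ 2 := (l2_norm_sq f).symm

theorem coe_H {lam : ℝ} {ω : (Fin d → ℤ) → ℝ} {H : L2 d →L[ℂ] L2 d} (hH : IsAnderson lam ω H)
    (f : L2 d) : ((H f : L2 d) : (Fin d → ℤ) → ℂ) = HF lam ω (f : (Fin d → ℤ) → ℂ) := by
  funext x
  exact hH f x

end Pool.Agent.V8H99.AD
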