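import Pool.Agent.V8H99.AD.Trans

/-! Restriction of the random potential to a box, and its law. -/

set_option autoImplicit false
set_option linter.unusedSectionVars false

open scoped BigOperators ENNReal
open MeasureTheory

namespace Pool.Agent.V8H99.AD

open Pool.Agent.H4R2.AE

variable {d L : ℕ} [NeZero L]

theorem law_rep (μ : Measure ℝ) [IsProbabilityMeasure μ] :
    MeasurePreserving (fun (ω : (Fin d → ℤ) → ℝ) (y : T d L) => ω (rep y))
      (Measure.infinitePi fun _ : Fin d → ℤ => μ) (Measure.pi fun _ : T d L => μ) := by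
  classical
  have hmeas : Measurable (fun (ω : (Fin d → ℤ) → ℝ) (y : T d L) => ω (rep y)) :=
    measurable_pi_lambda _ fun y => measurable_pi_apply _
  refine ⟨hmeas, (Measure.pi_eq fun s hs => ?_).symm⟩
  rw [Measure.map_apply hmeas (MeasurableSet.univ_pi hs)]
  set t : (Fin d → ℤ) → Set ℝ := Function.extend (rep : T d L → Fin d → ℤ) s
    (fun _ => Set.univ) with ht
  have ht1 : ∀ y : T d L, t (rep y) = s y := fun y =>
    (rep_injective (d := d) (L := L)).extend_apply _ _ _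
  have hpre : (fun (ω : (Fin d → ℤ) → ℝ) (y : T d L) => ω (rep y)) ⁻¹' Set.univ.pi s =
      Set.pi (↑(Finset.univ.map ⟨(rep : T d L → Fin d → ℤ), rep_injective⟩ : Finset (Fin d → ℤ)) :
        Set (Fin d → ℤ)) t := by
    ext ω
    simp only [Set.mem_preimage, Set.mem_pi, Set.mem_univ, forall_true_left, Finset.coe_map,
      Function.Embedding.coeFn_mk, Finset.coe_univ, Set.image_univ, Set.mem_range,
      forall_exists_index, forall_apply_eq_imp_iff, ht1]
  rw [hpre, Measure.infinitePi_pi]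
  · rw [Finset.prod_map]
    refine Finset.prod_congr rfl fun y _ => ?_
    simp only [Function.Embedding.coeFn_mk, ht1]
  · intro x hx
    rw [Finset.mem_map] at hx
    obtain ⟨y, -, rfl⟩ := hx
    simp only [Function.Embedding.coeFn_mk, ht1]
    exact hs y

theorem bounded_ae (μ : Measure ℝ) [IsProbabilityMeasure μ] (hμ : μ (Set.Icc (-1) 1)ᶜ = 0) :
    ∀ᵐ ω ∂(Measure.infinitePi fun _ : Fin d → ℤ => μ), ∀ x, |ω x| ≤ 1 := by
  rw [ae_all_iff]
  intro x
  have h1 := measurePreserving_eval_infinitePi (fun _ : Fin d → ℤ => μ) x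
  have h2 : ∀ᵐ s ∂μ, |s| ≤ 1 := by
    rw [ae_iff]
    have : {a : ℝ | ¬ |a| ≤ 1} = (Set.Icc (-1) 1)ᶜ := by
      ext a
      simp only [Set.mem_ofPred_eq, Set.mem_compl_iff, Set.mem_Icc, abs_le]
    rw [this]
    exact hμ
  exact h1.quasiMeasurePreserving.ae h2

theorem measurable_bdd : MeasurableSet {ω : (Fin d → ℤ) → ℝ | ∀ x, |ω x| ≤ 1} := by
  have : {ω : (Fin d → ℤ) → ℝ | ∀ x, |ω x| ≤ 1} = ⋂ x, {ω | |ω x| ≤ 1} := by
    ext ω; simp
  rw [this]
  exact MeasurableSet.iInter fun x =>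
    measurableSet_le ((measurable_pi_apply x).abs) measurable_const

/-- the event on `ℤ^d` obtained from an event on the torus -/
theorem lift_event (μ : Measure ℝ) [IsProbabilityMeasure μ] (hμ : μ (Set.Icc (-1) 1)ᶜ = 0)
    (G : Set (T d L → ℝ)) (hG : MeasurableSet G) (q : ℝ)
    (hq : (Measure.pi fun _ : T d L => μ).real Gᶜ ≤ q) :
    ∃ G' : Set ((Fin d → ℤ) → ℝ), MeasurableSet G' ∧
      (Measure.infinitePi fun _ : Fin d → ℤ => μ).real G'ᶜ ≤ q ∧
      ∀ ω ∈ G', (fun y : T d L => ω (rep y)) ∈ G ∧ ∀ x, |ω x| ≤ 1 := by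
  set P := Measure.infinitePi fun _ : Fin d → ℤ => μ with hP
  have hmp := law_rep (d := d) (L := L) μ
  set F : ((Fin d → ℤ) → ℝ) → T d L → ℝ := fun ω y => ω (rep y) with hF
  refine ⟨F ⁻¹' G ∩ {ω | ∀ x, |ω x| ≤ 1}, (hmp.measurable hG).inter measurable_bdd, ?_,
    fun ω hω => ⟨hω.1, hω.2⟩⟩
  rw [Set.compl_inter]
  have h0 : P.real {ω : (Fin d → ℤ) → ℝ | ∀ x, |ω x| ≤ 1}ᶜ = 0 := by
    rw [measureReal_def]
    have h1 : P {ω : (Fin d → ℤ) → ℝ | ∀ x, |ω x| ≤ 1}ᶜ = 0 := by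
      have := bounded_ae (d := d) μ hμ
      rw [ae_iff] at this
      exact this
    rw [h1]
    rfl
  have h2 : P.real (F ⁻¹' G)ᶜ = (Measure.pi fun _ : T d L => μ).real Gᶜ := by
    rw [← Set.preimage_compl, measureReal_def, measureReal_def, hmp.measure_preimage
      hG.compl.nullMeasurableSet]
  calc P.real ((F ⁻¹' G)ᶜ ∪ {ω | ∀ x, |ω x| ≤ 1}ᶜ) ≤ P.real (F ⁻¹' G)ᶜ +
        P.real {ω : (Fin d → ℤ) → ℝ | ∀ x, |ω x| ≤ 1}ᶜ := measureReal_union_le _ _
    _ ≤ q := by rw [h0, h2]; linarith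

end Pool.Agent.V8H99.AD
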