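import Mathlib

/-! Propagators of bounded self-adjoint operators: unitarity, derivative, truncation of the
exponential series. -/

set_option autoImplicit false

open scoped BigOperators
open MeasureTheory

namespace Pool.Agent.V8H99.AD

section
variable {X : Type*} [NormedAddCommGroup X] [InnerProductSpace ℂ X] [CompleteSpace X]

/-- the propagator `exp(-itA)` -/
noncomputable def ev (A : X →L[ℂ] X) (t : ℝ) : X →L[ℂ] X :=
  NormedSpace.exp ((-(t : ℂ) * Complex.I) • A)

theorem ev_unitary {A : X →L[ℂ] X} (hA : IsSelfAdjoint A) (t : ℝ) :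
    ev A t ∈ unitary (X →L[ℂ] X) := by
  have h1 : IsSelfAdjoint ((-t : ℝ) • A) := (IsSelfAdjoint.all (-t : ℝ)).smul hA
  have h2 := (selfAdjoint.expUnitary (⟨(-t : ℝ) • A, h1⟩ : selfAdjoint (X →L[ℂ] X))).2
  rw [selfAdjoint.expUnitary_coe] at h2
  have h3 : (Complex.I • ((⟨(-t : ℝ) • A, h1⟩ : selfAdjoint (X →L[ℂ] X)) : X →L[ℂ] X)) =
      (-(t : ℂ) * Complex.I) • A := by
    ext f
    simp only [smul_apply]
    rw [show ((-t : ℝ) • A f : X) = ((-t : ℝ) : ℂ) • A f from (Complex.coe_smul _ _).symm]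
    rw [smul_smul]
    push_cast
    ring_nf
  rw [h3] at h2
  exact h2

theorem ev_norm {A : X →L[ℂ] X} (hA : IsSelfAdjoint A) (t : ℝ) (f : X) : ‖ev A t f‖ = ‖f‖ :=
  ContinuousLinearMap.norm_map_of_mem_unitary (ev_unitary hA t) f

theorem ev_zero (A : X →L[ℂ] X) (f : X) : ev A 0 f = f := by
  unfold ev
  simp [NormedSpace.exp_zero]

theorem ev_comm (A : X →L[ℂ] X) (t : ℝ) (f : X) : A (ev A t f) = ev A t (A f) := by
  have h : Commute A ((-(t : ℂ) * Complex.I) • A) := (Commute.refl A).smul_right _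
  have h2 := h.exp_right
  have h3 := congrArg (fun B : X →L[ℂ] X => B f) h2.eq
  exact h3

theorem ev_inner {A : X →L[ℂ] X} (hA : IsSelfAdjoint A) (t : ℝ) (f g : X) :
    inner ℂ (ev A t f) (ev A t g) = inner ℂ f g := by
  exact ContinuousLinearMap.inner_map_map_of_mem_unitary (ev_unitary hA t) f g

theorem ev_energy {A : X →L[ℂ] X} (hA : IsSelfAdjoint A) (t : ℝ) (f : X) :
    inner ℂ (ev A t f) (A (ev A t f)) = inner ℂ f (A f) := by
  rw [ev_comm, ev_inner hA]

theorem ev_deriv (A : X →L[ℂ] X) (t : ℝ) (f : X) :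
    HasDerivAt (fun s : ℝ => ev A s f) ((-Complex.I) • A (ev A t f)) t := by
  have h1 : ∀ s : ℝ, (-(s : ℂ) * Complex.I) • A = s • ((-Complex.I) • A) := by
    intro s
    rw [← Complex.coe_smul, smul_smul]
    congr 1
    ring
  have h2 := hasDerivAt_exp_smul_const' (𝕂 := ℝ) (((-Complex.I) • A : X →L[ℂ] X)) t
  have h3 : HasDerivAt (fun s : ℝ => ev A s) ((((-Complex.I) • A : X →L[ℂ] X)) * ev A t) t := by
    unfold ev
    simp only [h1]
    exact h2
  have h4 : HasDerivAt (fun s : ℝ => ev A s f) (((((-Complex.I) • A : X →L[ℂ] X)) * ev A t) f) t := by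
    have := ((ContinuousLinearMap.apply ℂ X f).restrictScalars ℝ).hasFDerivAt.comp_hasDerivAt t h3
    exact this
  exact h4

/-- truncation of the exponential series -/
theorem exp_trunc (B : X →L[ℂ] X) (a : ℝ) (ha : ‖B‖ ≤ a) (N : ℕ) :
    ‖NormedSpace.exp B - ∑ n ∈ Finset.range N, ((n.factorial : ℂ)⁻¹) • B ^ n‖ ≤
      a ^ N / N.factorial * Real.exp a := by
  have ha0 : 0 ≤ a := (norm_nonneg _).trans ha
  have h1 : HasSum (fun n : ℕ => ((n.factorial : ℂ)⁻¹) • B ^ n) (NormedSpace.exp B) :=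
    NormedSpace.exp_series_hasSum_exp' (𝕂 := ℂ) B
  have h2 := (hasSum_nat_add_iff' N).2 h1
  have h3 : HasSum (fun n : ℕ => a ^ N / N.factorial * (a ^ n / n.factorial))
      (a ^ N / N.factorial * Real.exp a) := by
    have h4 : HasSum (fun n : ℕ => a ^ n / (n.factorial : ℝ)) (Real.exp a) := by
      rw [Real.exp_eq_exp_ℝ]
      exact NormedSpace.expSeries_div_hasSum_exp a
    exact h4.mul_left _
  rw [← h2.tsum_eq]
  refine tsum_of_norm_bounded h3 fun n => ?_
  have hf : ((n.factorial : ℝ) * N.factorial) ≤ ((n + N).factorial : ℝ) := by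
    exact_mod_cast Nat.le_of_dvd (Nat.factorial_pos _) (Nat.factorial_mul_factorial_dvd_factorial_add n N)
  have hn : (0 : ℝ) < n.factorial := by exact_mod_cast Nat.factorial_pos n
  have hN : (0 : ℝ) < N.factorial := by exact_mod_cast Nat.factorial_pos N
  have hp : ‖B ^ (n + N)‖ ≤ a ^ (n + N) := by
    rcases Nat.eq_zero_or_pos (n + N) with h | h
    · rw [h, pow_zero, pow_zero]
      exact ContinuousLinearMap.norm_id_le
    · exact (norm_pow_le' B h).trans (pow_le_pow_left₀ (norm_nonneg _) ha _)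
  calc ‖(((n + N).factorial : ℂ)⁻¹) • B ^ (n + N)‖
      = ((n + N).factorial : ℝ)⁻¹ * ‖B ^ (n + N)‖ := by
        rw [norm_smul, norm_inv, Complex.norm_natCast]
    _ ≤ ((n.factorial : ℝ) * N.factorial)⁻¹ * a ^ (n + N) := by
        gcongr
    _ = a ^ N / N.factorial * (a ^ n / n.factorial) := by
        rw [pow_add]
        field_simp

theorem exp_tail (a : ℝ) (N : ℕ) (ha : 0 ≤ a) (h : 24 * a ≤ N) :
    a ^ N / N.factorial * Real.exp a ≤ Real.exp (-(N : ℝ)) := by
  have hN : (0 : ℝ) < N.factorial := by exact_mod_cast Nat.factorial_pos N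
  have h1 : (8 * a) ^ N / N.factorial ≤ Real.exp (8 * a) :=
    Real.pow_div_factorial_le_exp (8 * a) (by positivity) N
  have h8 : Real.exp (2 : ℝ) ≤ 8 := by
    have h := Real.exp_one_lt_d9
    have h5 : Real.exp 2 = Real.exp 1 * Real.exp 1 := by rw [← Real.exp_add]; norm_num
    have h6 := Real.exp_pos 1
    rw [h5]; nlinarith
  have h2 : a ^ N / N.factorial ≤ Real.exp (-(2 * N : ℝ)) * Real.exp (8 * a) := by
    have e1 : a ^ N / N.factorial = (8 ^ N : ℝ)⁻¹ * ((8 * a) ^ N / N.factorial) := by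
      rw [mul_pow]
      field_simp
    rw [e1]
    have e2 : ((8 : ℝ) ^ N)⁻¹ ≤ Real.exp (-(2 * N : ℝ)) := by
      rw [Real.exp_neg]
      apply inv_anti₀ (Real.exp_pos _)
      calc Real.exp (2 * N : ℝ) = Real.exp 2 ^ N := by
            rw [← Real.exp_nat_mul]; congr 1; ring
        _ ≤ 8 ^ N := by gcongr
    exact mul_le_mul e2 h1 (by positivity) (Real.exp_pos _).le
  calc a ^ N / N.factorial * Real.exp a
      ≤ Real.exp (-(2 * N : ℝ)) * Real.exp (8 * a) * Real.exp a := by gcongr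
    _ = Real.exp (-(2 * N : ℝ) + 9 * a) := by
        rw [← Real.exp_add, ← Real.exp_add]; congr 1; ring
    _ ≤ Real.exp (-(N : ℝ)) := by
        apply Real.exp_le_exp.2
        linarith

end

end Pool.Agent.V8H99.AD
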