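import Pool.Agent.V8H99.AD.TorOp

/-! Comparison of the evolution of `-Δ + λV` with the free one on the torus. -/

set_option autoImplicit false
set_option linter.unusedSectionVars false

open scoped BigOperators ComplexConjugate
open MeasureTheory

namespace Pool.Agent.V8H99.AD

open Pool.Agent.H4R2.AE

variable {d L : ℕ} [NeZero L]

theorem exp_bounds {δ w : ℝ} (hδ : 0 ≤ δ) (hδ' : δ ≤ 1 / 8) (hw : |w| ≤ δ) :
    7 / 8 ≤ Real.exp w ∧ Real.exp w ≤ 8 / 7 ∧ |1 - Real.exp w| ≤ 6 / 5 * δ ∧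
      |Real.exp w ^ 2 - 1| ≤ 3 * δ := by
  obtain ⟨h1, h2⟩ := abs_le.1 hw
  have l1 := Real.add_one_le_exp w
  have l2 := Real.add_one_le_exp (-w)
  have hp := Real.exp_pos w
  have hm : Real.exp w * Real.exp (-w) = 1 := by rw [← Real.exp_add]; simp
  have hu : Real.exp w * (1 - w) ≤ 1 := by nlinarith
  have hup : Real.exp w ≤ 8 / 7 := by nlinarith
  have hup2 : Real.exp w - 1 ≤ 8 / 7 * δ := by nlinarith
  refine ⟨by linarith, hup, ?_, ?_⟩
  · rw [abs_le]; constructor <;> nlinarith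
  · rw [abs_le]
    constructor
    · nlinarith
    · have : Real.exp w ^ 2 - 1 = (Real.exp w - 1) * (Real.exp w + 1) := by ring
      rw [this]
      have h3 : Real.exp w + 1 ≤ 15 / 7 := by linarith
      rcases le_total (Real.exp w - 1) 0 with h | h
      · nlinarith
      · nlinarith

/-- multiplication by the ground state -/
noncomputable abbrev MU (w : T d L → ℝ) : XT d L →L[ℂ] XT d L := Mu (fun y => Real.exp (w y))

theorem MU_le {δ : ℝ} (hδ : 0 ≤ δ) (hδ' : δ ≤ 1 / 8) {w : T d L → ℝ} (hw : ∀ x, |w x| ≤ δ)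
    (f : XT d L) : ‖MU w f‖ ≤ 8 / 7 * ‖f‖ := by
  refine Mu_norm_le _ _ (by norm_num) (fun x => ?_) f
  rw [abs_of_pos (Real.exp_pos _)]
  exact (exp_bounds hδ hδ' (hw x)).2.1

theorem MU_sub {δ : ℝ} (hδ : 0 ≤ δ) (hδ' : δ ≤ 1 / 8) {w : T d L → ℝ} (hw : ∀ x, |w x| ≤ δ)
    (f : XT d L) : ‖f - MU w f‖ ≤ 6 / 5 * δ * ‖f‖ := by
  rw [Mu_sub]
  exact Mu_norm_le _ _ (by positivity) (fun x => (exp_bounds hδ hδ' (hw x)).2.2.1) f

theorem MU_inv (w : T d L → ℝ) (f : XT d L) : MU w (MU (fun x => -w x) f) = f := by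
  ext x
  show (MU w (MU (fun x => -w x) f)) x = f x
  rw [Mu_apply, Mu_apply, ← mul_assoc, ← Complex.ofReal_mul, ← Real.exp_add]
  simp

/-- the free operator -/
noncomputable abbrev H0 : XT d L →L[ℂ] XT d L := HC 0 (0 : T d L → ℝ)

theorem H0_apply (f : XT d L) (x : T d L) : (H0 f) x = Bf (fun y => f y) x := by
  rw [HC_apply]
  simp

theorem H0_norm (f : XT d L) : ‖H0 f‖ = √(nsq (Bf fun y => f y)) := by
  rw [norm_eq_nsq]
  congr 2
  funext x
  exact H0_apply f x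

theorem dir_eq (f : XT d L) : ((Dir (fun y => f y) : ℝ) : ℂ) = inner ℂ f (H0 f) := by
  rw [inner_eq, ← bf_dir]
  refine Finset.sum_congr rfl fun x _ => ?_
  rw [H0_apply]

theorem dir_le (f : XT d L) : Dir (fun y => f y) ≤ ‖f‖ * ‖H0 f‖ := by
  have h1 := norm_inner_le_norm (𝕜 := ℂ) f (H0 f)
  rw [← dir_eq, Complex.norm_real, Real.norm_eq_abs, abs_of_nonneg (Dir_nonneg _)] at h1
  exact h1

theorem dir_sub (f g : T d L → ℂ) : Dir (fun x => f x - g x) ≤ 2 * Dir f + 2 * Dir g := by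
  unfold Dir
  rw [Finset.mul_sum, Finset.mul_sum, ← Finset.sum_add_distrib]
  refine Finset.sum_le_sum fun i _ => ?_
  rw [Finset.mul_sum, Finset.mul_sum, ← Finset.sum_add_distrib]
  refine Finset.sum_le_sum fun x _ => ?_
  have h := norm_sub_le (f x - f (x + Pi.single i 1)) (g x - g (x + Pi.single i 1))
  have e : f x - g x - (f (x + Pi.single i 1) - g (x + Pi.single i 1)) =
      (f x - f (x + Pi.single i 1)) - (g x - g (x + Pi.single i 1)) := by ring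
  rw [e]
  have h1 := norm_nonneg (f x - f (x + Pi.single i 1))
  have h2 := norm_nonneg (g x - g (x + Pi.single i 1))
  have h3 := norm_nonneg ((f x - f (x + Pi.single i 1)) - (g x - g (x + Pi.single i 1)))
  nlinarith [sq_nonneg (‖f x - f (x + Pi.single i 1)‖ - ‖g x - g (x + Pi.single i 1)‖)]

section
variable {lam E κ δ ε : ℝ} {V w : T d L → ℝ}

/-- the Dirichlet form of `h` is controlled by the energy -/
theorem dir_h (hδ : 0 ≤ δ) (hδ' : δ ≤ 1 / 8) (hκ : 0 ≤ κ) (hw : ∀ x, |w x| ≤ δ)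
    (h : MassEq lam E κ V w) (f : XT d L) :
    49 / 64 * Dir (fun y => f y) ≤
      (inner ℂ (MU w f) (Aop lam E V (MU w f))).re + κ * δ * ‖MU w f‖ ^ 2 := by
  rw [energy h, Complex.ofReal_re]
  have h1 : 49 / 64 * Dir (fun y => f y) ≤
      ∑ i : Fin d, ∑ x, Real.exp (w x) * Real.exp (w (x + Pi.single i 1)) *
        ‖f x - f (x + Pi.single i 1)‖ ^ 2 := by
    unfold Dir
    rw [Finset.mul_sum]
    refine Finset.sum_le_sum fun i _ => ?_
    rw [Finset.mul_sum]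
    refine Finset.sum_le_sum fun x _ => ?_
    refine mul_le_mul_of_nonneg_right ?_ (by positivity)
    have a := (exp_bounds hδ hδ' (hw x)).1
    have b := (exp_bounds hδ hδ' (hw (x + Pi.single i 1))).1
    nlinarith
  have h2 : ∑ x, w x * ‖(MU w f) x‖ ^ 2 ≤ δ * ‖MU w f‖ ^ 2 := by
    rw [norm_sq_eq_nsq]
    unfold nsq
    rw [Finset.mul_sum]
    refine Finset.sum_le_sum fun x _ => ?_
    exact mul_le_mul_of_nonneg_right ((le_abs_self _).trans (hw x)) (by positivity)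
  have h3 : κ * ∑ x, w x * ‖(MU w f) x‖ ^ 2 ≤ κ * (δ * ‖MU w f‖ ^ 2) :=
    mul_le_mul_of_nonneg_left h2 hκ
  linarith

theorem energy_up (hδ : 0 ≤ δ) (hδ' : δ ≤ 1 / 8) (hκ : 0 ≤ κ) (hw : ∀ x, |w x| ≤ δ)
    (h : MassEq lam E κ V w) (f : XT d L) :
    (inner ℂ (MU w f) (Aop lam E V (MU w f))).re ≤
      64 / 49 * Dir (fun y => f y) + κ * δ * ‖MU w f‖ ^ 2 := by
  rw [energy h, Complex.ofReal_re]
  have h1 : ∑ i : Fin d, ∑ x, Real.exp (w x) * Real.exp (w (x + Pi.single i 1)) *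
        ‖f x - f (x + Pi.single i 1)‖ ^ 2 ≤ 64 / 49 * Dir (fun y => f y) := by
    unfold Dir
    rw [Finset.mul_sum]
    refine Finset.sum_le_sum fun i _ => ?_
    rw [Finset.mul_sum]
    refine Finset.sum_le_sum fun x _ => ?_
    refine mul_le_mul_of_nonneg_right ?_ (by positivity)
    have a := (exp_bounds hδ hδ' (hw x)).2.1
    have b := (exp_bounds hδ hδ' (hw (x + Pi.single i 1))).2.1
    have a' := Real.exp_pos (w x)
    have b' := Real.exp_pos (w (x + Pi.single i 1))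
    nlinarith
  have h2 : -(δ * ‖MU w f‖ ^ 2) ≤ ∑ x, w x * ‖(MU w f) x‖ ^ 2 := by
    rw [norm_sq_eq_nsq]
    unfold nsq
    rw [Finset.mul_sum, ← Finset.sum_neg_distrib]
    refine Finset.sum_le_sum fun x _ => ?_
    have := (abs_le.1 (hw x)).1
    rw [← neg_mul]
    exact mul_le_mul_of_nonneg_right this (by positivity)
  have h3 : κ * (-(δ * ‖MU w f‖ ^ 2)) ≤ κ * ∑ x, w x * ‖(MU w f) x‖ ^ 2 :=
    mul_le_mul_of_nonneg_left h2 hκ
  linarith

/-- the rate of change of the distance -/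
theorem rate (hδ : 0 ≤ δ) (hδ' : δ ≤ 1 / 8) (hκ : 0 ≤ κ) (hκε : κ ≤ ε ^ 2)
    (hw : ∀ x, |w x| ≤ δ) (h : MassEq lam E κ V w) (q g : XT d L) (P : ℝ) (hP : 0 ≤ P)
    (hε : 0 ≤ ε) (hg : ‖g‖ ≤ P) (hBg : ‖H0 g‖ ≤ ε ^ 2 * P) (hq : ‖q‖ ≤ 7 / 3 * P)
    (hDq : Dir (fun y => q y) ≤ 9 * (ε ^ 2 * P ^ 2)) :
    ‖inner ℂ (MU w q) (Aop lam E V (MU w g) - MU w (H0 g))‖ ≤ 21 * (δ * ε ^ 2 * P ^ 2) := by
  have hDg : Dir (fun y => g y) ≤ ε ^ 2 * P ^ 2 := by
    refine (dir_le g).trans ?_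
    calc ‖g‖ * ‖H0 g‖ ≤ P * (ε ^ 2 * P) := by gcongr
      _ = _ := by ring
  have e1 : inner ℂ (MU w q) (Aop lam E V (MU w g) - MU w (H0 g)) =
      (∑ x, conj ((Real.exp (w x) : ℂ) * q x) * Rf (fun y => Real.exp (w y)) (fun y => g y) x) -
      ∑ x, conj ((MU w q) x) * (((κ * w x * Real.exp (w x) : ℝ) : ℂ) * g x) := by
    rw [inner_eq, ← Finset.sum_sub_distrib]
    refine Finset.sum_congr rfl fun x _ => ?_
    rw [comm_eq h g x, mul_sub, Mu_apply]
  rw [e1]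
  refine (norm_sub_le _ _).trans ?_
  have p1 := pairing_le (fun y => Real.exp (w y)) (fun y => q y) (fun y => g y) (3 * δ) δ
    (by positivity) (fun x => (exp_bounds hδ hδ' (hw x)).2.2.2) (fun x y => by
      have a := abs_le.1 (exp_bounds hδ hδ' (hw x)).2.2.1
      have b := abs_le.1 (exp_bounds hδ hδ' (hw y)).2.2.1
      have c : |Real.exp (w x) - Real.exp (w y)| ≤ 12 / 5 * δ := by
        rw [abs_le]; constructor <;> linarith [a.1, a.2, b.1, b.2]
      have := sq_abs (Real.exp (w x) - Real.exp (w y))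
      rw [← this]
      have c0 := abs_nonneg (Real.exp (w x) - Real.exp (w y))
      nlinarith)
  rw [← norm_eq_nsq q, ← H0_norm g] at p1
  have hDq' : √(Dir fun y => q y) ≤ 3 * (ε * P) := by
    refine Real.sqrt_le_iff.2 ⟨by positivity, hDq.trans (le_of_eq (by ring))⟩
  have hDg' : √(Dir fun y => g y) ≤ ε * P := by
    refine Real.sqrt_le_iff.2 ⟨by positivity, hDg.trans (le_of_eq (by ring))⟩
  have q1 : 3 * δ * (‖q‖ * ‖H0 g‖) + (3 * δ + δ / 2) *
      (√(Dir fun y => q y) * √(Dir fun y => g y)) ≤ 35 / 2 * (δ * ε ^ 2 * P ^ 2) := by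
    calc _ ≤ 3 * δ * (7 / 3 * P * (ε ^ 2 * P)) + (3 * δ + δ / 2) * (3 * (ε * P) * (ε * P)) := by
          gcongr
      _ = _ := by ring
  have q2 : ‖∑ x, conj ((MU w q) x) * (((κ * w x * Real.exp (w x) : ℝ) : ℂ) * g x)‖ ≤
      7 / 2 * (δ * ε ^ 2 * P ^ 2) := by
    have q3 : ∑ x, conj ((MU w q) x) * (((κ * w x * Real.exp (w x) : ℝ) : ℂ) * g x) =
        inner ℂ (MU w q) (Mu (fun x => κ * w x * Real.exp (w x)) g) := by
      rw [inner_eq]
      rfl
    rw [q3]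
    refine (norm_inner_le_norm _ _).trans ?_
    have q4 : ‖Mu (fun x => κ * w x * Real.exp (w x)) g‖ ≤ (ε ^ 2 * δ * (8 / 7)) * ‖g‖ := by
      refine Mu_norm_le _ _ (by positivity) (fun x => ?_) g
      rw [abs_mul, abs_mul, abs_of_nonneg hκ, abs_of_pos (Real.exp_pos _)]
      have := (exp_bounds hδ hδ' (hw x)).2.1
      have h0 := hw x
      gcongr
    calc ‖MU w q‖ * ‖Mu (fun x => κ * w x * Real.exp (w x)) g‖
        ≤ (8 / 7 * (7 / 3 * P)) * ((ε ^ 2 * δ * (8 / 7)) * P) := by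
          refine mul_le_mul ((MU_le hδ hδ' hw q).trans (by gcongr)) (q4.trans (by gcongr))
            (norm_nonneg _) (by positivity)
      _ = 64 / 21 * (δ * ε ^ 2 * P ^ 2) := by ring
      _ ≤ _ := by
          have : 0 ≤ δ * ε ^ 2 * P ^ 2 := by positivity
          linarith
  linarith [p1, q1, q2]

/-- **comparison of the evolutions on the torus** -/
theorem torus_dyn (hδ : 0 ≤ δ) (hδ' : δ ≤ 1 / 8) (hκ : 0 ≤ κ) (hε : 0 ≤ ε) (hκε : κ ≤ ε ^ 2)
    (hw : ∀ x, |w x| ≤ δ) (h : MassEq lam E κ V w) (ψ : XT d L) (hψ : ‖H0 ψ‖ ≤ ε ^ 2 * ‖ψ‖)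
    (t : ℝ) :
    ‖ev (Aop lam E V) t ψ - ev H0 t ψ‖ ^ 2 ≤ 84 * (δ * (δ + ε ^ 2 * |t|)) * ‖ψ‖ ^ 2 := by
  set P := ‖ψ‖ with hP
  have hP0 : 0 ≤ P := norm_nonneg _
  set A : XT d L →L[ℂ] XT d L := Aop lam E V with hA
  have hAsa : IsSelfAdjoint A := Aop_sa lam E V
  have hBsa : IsSelfAdjoint (H0 : XT d L →L[ℂ] XT d L) := HC_sa 0 0
  set e : ℝ → XT d L := fun s => ev A s (MU w ψ) - MU w (ev H0 s ψ) with he
  -- derivative of `e`
  have hder : ∀ s, HasDerivAt e ((-Complex.I) • A (ev A s (MU w ψ)) -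
      MU w ((-Complex.I) • H0 (ev H0 s ψ))) s := by
    intro s
    have h1 := ev_deriv A s (MU w ψ)
    have h2 := ev_deriv (H0 : XT d L →L[ℂ] XT d L) s ψ
    have h3 : HasDerivAt (fun s => MU w (ev H0 s ψ)) (MU w ((-Complex.I) • H0 (ev H0 s ψ))) s :=
      ((MU w : XT d L →L[ℂ] XT d L).restrictScalars ℝ).hasFDerivAt.comp_hasDerivAt s h2
    exact h1.sub h3
  -- the bounds at time `s`
  have hbd : ∀ s, ‖inner ℂ (e s) (A (MU w (ev H0 s ψ)) - MU w (H0 (ev H0 s ψ)))‖ ≤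
      21 * (δ * ε ^ 2 * P ^ 2) := by
    intro s
    set g := ev H0 s ψ with hg
    set φ := ev A s (MU w ψ) with hφ
    set hh := MU (fun x => -w x) φ with hhh
    have hw' : ∀ x, |-w x| ≤ δ := fun x => by rw [abs_neg]; exact hw x
    have e1 : φ = MU w hh := (MU_inv w φ).symm
    have e2 : e s = MU w (hh - g) := by
      rw [map_sub, ← e1]
    have gn : ‖g‖ = P := ev_norm hBsa s ψ
    have φn : ‖φ‖ ≤ 8 / 7 * P := by
      rw [hφ, ev_norm hAsa]
      exact MU_le hδ hδ' hw ψ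
    have hn : ‖hh‖ ≤ 64 / 49 * P := by
      refine (MU_le hδ hδ' hw' φ).trans ?_
      nlinarith
    have hBg : ‖H0 g‖ ≤ ε ^ 2 * P := by
      rw [hg, ev_comm, ev_norm hBsa]
      exact hψ
    have hDψ : Dir (fun y => ψ y) ≤ ε ^ 2 * P ^ 2 := by
      refine (dir_le ψ).trans ?_
      calc ‖ψ‖ * ‖H0 ψ‖ ≤ P * (ε ^ 2 * P) := by gcongr
        _ = _ := by ring
    have hDg : Dir (fun y => g y) ≤ ε ^ 2 * P ^ 2 := by
      refine (dir_le g).trans ?_
      calc ‖g‖ * ‖H0 g‖ ≤ P * (ε ^ 2 * P) := by rw [gn]; gcongr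
        _ = _ := by ring
    have hDh : Dir (fun y => hh y) ≤ 7 / 3 * (ε ^ 2 * P ^ 2) := by
      have k1 := dir_h hδ hδ' hκ hw h hh
      rw [← e1] at k1
      have k2 : inner ℂ φ (A φ) = inner ℂ (MU w ψ) (A (MU w ψ)) := ev_energy hAsa s (MU w ψ)
      have k3 := energy_up hδ hδ' hκ hw h ψ
      rw [← hA, ← k2] at k3
      have k4 : ‖MU w ψ‖ ^ 2 ≤ (8 / 7 * P) ^ 2 := by
        have := MU_le hδ hδ' hw ψ
        gcongr
      have k5 : ‖φ‖ ^ 2 ≤ (8 / 7 * P) ^ 2 := by gcongr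
      have k6 : κ * δ * ‖MU w ψ‖ ^ 2 ≤ ε ^ 2 * (1 / 8) * (8 / 7 * P) ^ 2 := by gcongr
      have k7 : κ * δ * ‖φ‖ ^ 2 ≤ ε ^ 2 * (1 / 8) * (8 / 7 * P) ^ 2 := by gcongr
      have k8 : 0 ≤ ε ^ 2 * P ^ 2 := by positivity
      nlinarith
    have hDq : Dir (fun y => (hh - g) y) ≤ 9 * (ε ^ 2 * P ^ 2) := by
      have k1 := dir_sub (fun y => hh y) (fun y => g y)
      have k2 : (fun y => (hh - g) y) = fun y => hh y - g y := rfl
      rw [k2]
      have k8 : 0 ≤ ε ^ 2 * P ^ 2 := by positivity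
      nlinarith
    have hqn : ‖hh - g‖ ≤ 7 / 3 * P := by
      refine (norm_sub_le _ _).trans ?_
      rw [gn]
      nlinarith
    rw [e2]
    exact rate hδ hδ' hκ hκε hw h (hh - g) g P hP0 hε gn.le hBg hqn hDq
  -- derivative of the squared norm
  have hN : ∀ s, HasDerivAt (fun s => (inner ℂ (e s) (e s) : ℂ).re)
      (2 * (inner ℂ (e s) (A (MU w (ev H0 s ψ)) - MU w (H0 (ev H0 s ψ)))).im) s := by
    intro s
    set e' := (-Complex.I) • A (ev A s (MU w ψ)) - MU w ((-Complex.I) • H0 (ev H0 s ψ)) with he'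
    have h1 : HasDerivAt (fun s => (inner ℂ (e s) (e s) : ℂ))
        (inner ℂ (e s) e' + inner ℂ e' (e s)) s := (hder s).inner ℂ (hder s)
    have h2 : HasDerivAt (fun s => (inner ℂ (e s) (e s) : ℂ).re)
        ((inner ℂ (e s) e' + inner ℂ e' (e s) : ℂ).re) s := by
      have := (Complex.reCLM.hasFDerivAt (x := (inner ℂ (e s) (e s) : ℂ))).comp_hasDerivAt s h1
      exact this
    convert h2 using 1
    set r := A (MU w (ev H0 s ψ)) - MU w (H0 (ev H0 s ψ)) with hr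
    have h3 : e' = (-Complex.I) • (A (e s) + r) := by
      rw [he', hr, map_smul, ← smul_sub]
      congr 1
      simp only [he, map_sub]
      abel
    have h4 : (inner ℂ e' (e s) : ℂ) = conj (inner ℂ (e s) e') := (inner_conj_symm _ _).symm
    have h5 : (inner ℂ (e s) (A (e s)) : ℂ).im = 0 := by
      have h6 : inner ℂ (A (e s)) (e s) = (inner ℂ (e s) (A (e s)) : ℂ) :=
        (ContinuousLinearMap.isSelfAdjoint_iff_isSymmetric.1 hAsa) (e s) (e s)
      have h7 : (inner ℂ (A (e s)) (e s) : ℂ) = conj (inner ℂ (e s) (A (e s))) :=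
        (inner_conj_symm _ _).symm
      rw [h6] at h7
      exact Complex.conj_eq_iff_im.1 h7.symm
    rw [h4, Complex.add_re, Complex.conj_re, h3, inner_smul_right, inner_add_right]
    simp only [Complex.mul_re, Complex.neg_re, Complex.I_re, Complex.neg_im, Complex.I_im,
      Complex.add_re, Complex.add_im, h5]
    ring
  have hlip : |(inner ℂ (e t) (e t) : ℂ).re - (inner ℂ (e 0) (e 0) : ℂ).re| ≤
      42 * (δ * ε ^ 2 * P ^ 2) * |t - 0| := by
    have := Convex.norm_image_sub_le_of_norm_hasDerivWithin_le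
      (f := fun s => (inner ℂ (e s) (e s) : ℂ).re)
      (f' := fun s => 2 * (inner ℂ (e s) (A (MU w (ev H0 s ψ)) - MU w (H0 (ev H0 s ψ)))).im)
      (s := Set.univ) (x := 0) (y := t) (C := 42 * (δ * ε ^ 2 * P ^ 2))
      (fun s _ => (hN s).hasDerivWithinAt) (fun s _ => by
        rw [Real.norm_eq_abs, abs_mul, abs_two]
        have h1 := Complex.abs_im_le_norm
          (inner ℂ (e s) (A (MU w (ev H0 s ψ)) - MU w (H0 (ev H0 s ψ))))
        have h2 := hbd s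
        linarith) convex_univ (Set.mem_univ _) (Set.mem_univ _)
    simpa [Real.norm_eq_abs] using this
  have h0 : e 0 = 0 := by
    simp only [he, ev_zero, sub_self]
  have hre : ∀ s, (inner ℂ (e s) (e s) : ℂ).re = ‖e s‖ ^ 2 := fun s => by
    have := inner_self_eq_norm_sq (𝕜 := ℂ) (e s)
    exact this
  rw [hre, hre, h0, norm_zero, sub_zero] at hlip
  have hN2 : ‖e t‖ ^ 2 ≤ 42 * (δ * ε ^ 2 * P ^ 2) * |t| := by
    have := (le_abs_self _).trans hlip
    simpa using this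
  have hsplit : ev A t ψ - ev H0 t ψ =
      ev A t (ψ - MU w ψ) + e t - (ev H0 t ψ - MU w (ev H0 t ψ)) := by
    simp only [he, map_sub]
    abel
  have n1 : ‖ev A t (ψ - MU w ψ)‖ ≤ 6 / 5 * δ * P := by
    rw [ev_norm hAsa]
    exact MU_sub hδ hδ' hw ψ
  have n2 : ‖ev H0 t ψ - MU w (ev H0 t ψ)‖ ≤ 6 / 5 * δ * P := by
    have := MU_sub hδ hδ' hw (ev H0 t ψ)
    rwa [ev_norm hBsa] at this
  have n3 : ‖ev A t ψ - ev H0 t ψ‖ ≤ 12 / 5 * δ * P + ‖e t‖ := by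
    rw [hsplit]
    refine (norm_sub_le _ _).trans ?_
    have := norm_add_le (ev A t (ψ - MU w ψ)) (e t)
    linarith
  have n4 : ‖ev A t ψ - ev H0 t ψ‖ ^ 2 ≤ (12 / 5 * δ * P + ‖e t‖) ^ 2 := by gcongr
  have n5 : 0 ≤ δ * (δ * P ^ 2) := by positivity
  have n6 : 0 ≤ δ * ε ^ 2 * P ^ 2 * |t| := by positivity
  nlinarith [sq_nonneg (12 / 5 * δ * P - ‖e t‖)]

end

end Pool.Agent.V8H99.AD
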