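import Pool.Agent.V8H99.AD.Trans
import Pool.Agent.V8H99.AD.TorDyn

/-! From the torus to `ℤ^d`: comparison of the propagators. -/

set_option autoImplicit false
set_option linter.unusedSectionVars false

open scoped BigOperators ComplexConjugate ENNReal
open MeasureTheory

namespace Pool.Agent.V8H99.AD

open Pool.Agent.H4R2.AE

theorem ev_shift {X : Type*} [NormedAddCommGroup X] [InnerProductSpace ℂ X] [CompleteSpace X]
    (A : X →L[ℂ] X) (E t : ℝ) (f : X) :
    ev (A - ((E : ℝ) : ℂ) • ContinuousLinearMap.id ℂ X) t f =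
      Complex.exp (Complex.I * t * E) • ev A t f := by
  unfold ev
  have h1 : (-(t : ℂ) * Complex.I) • (A - ((E : ℝ) : ℂ) • ContinuousLinearMap.id ℂ X) =
      (Complex.I * t * E) • (1 : X →L[ℂ] X) + (-(t : ℂ) * Complex.I) • A := by
    ext g
    simp only [smul_apply, sub_apply, add_apply, ContinuousLinearMap.id_apply,
      one_apply_eq_self, smul_sub, smul_smul]
    rw [sub_eq_add_neg, add_comm, ← neg_smul]
    congr 2
    ring
  have hc : Commute ((Complex.I * t * E) • (1 : X →L[ℂ] X)) ((-(t : ℂ) * Complex.I) • A) :=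
    (Commute.one_left _).smul_left _
  let _ : NormedAlgebra ℚ (X →L[ℂ] X) := NormedAlgebra.restrictScalars ℚ ℂ (X →L[ℂ] X)
  rw [h1, NormedSpace.exp_add_of_commute hc]
  have h2 : NormedSpace.exp ((Complex.I * t * E) • (1 : X →L[ℂ] X)) =
      Complex.exp (Complex.I * t * E) • (1 : X →L[ℂ] X) := by
    rw [← Algebra.algebraMap_eq_smul_one, ← NormedSpace.algebraMap_exp_comm,
      Algebra.algebraMap_eq_smul_one, Complex.exp_eq_exp_ℂ]
  rw [h2]
  simp

section
variable {d L : ℕ} [NeZero L]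

theorem SuppIn.mono {f : (Fin d → ℤ) → ℂ} {n m : ℕ} (h : SuppIn f n) (hnm : n ≤ m) : SuppIn f m := by
  intro x hx i
  have := h x hx i
  omega

/-- truncated exponential -/
noncomputable def tr {X : Type*} [NormedAddCommGroup X] [InnerProductSpace ℂ X] [CompleteSpace X]
    (A : X →L[ℂ] X) (t : ℝ) (N : ℕ) : X →L[ℂ] X :=
  ∑ n ∈ Finset.range N, ((n.factorial : ℂ)⁻¹) • ((-(t : ℂ) * Complex.I) • A) ^ n

theorem tr_err {X : Type*} [NormedAddCommGroup X] [InnerProductSpace ℂ X] [CompleteSpace X]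
    (A : X →L[ℂ] X) (t a : ℝ) (N : ℕ) (hA : ‖A‖ ≤ a) (ht : 24 * (a * |t|) ≤ N) (f : X) :
    ‖ev A t f - tr A t N f‖ ≤ Real.exp (-(N : ℝ)) * ‖f‖ := by
  have ha : 0 ≤ a := (norm_nonneg _).trans hA
  have h1 : ‖(-(t : ℂ) * Complex.I) • A‖ ≤ a * |t| := by
    rw [norm_smul, norm_mul, norm_neg, Complex.norm_real, Complex.norm_I, mul_one,
      Real.norm_eq_abs, mul_comm]
    gcongr
  have h2 := exp_trunc ((-(t : ℂ) * Complex.I) • A) (a * |t|) h1 N
  have h3 := exp_tail (a * |t|) N (by positivity) ht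
  calc ‖ev A t f - tr A t N f‖ = ‖(ev A t - tr A t N) f‖ := rfl
    _ ≤ ‖ev A t - tr A t N‖ * ‖f‖ := ContinuousLinearMap.le_opNorm _ _
    _ ≤ _ := mul_le_mul_of_nonneg_right (h2.trans h3) (norm_nonneg _)

theorem tr_apply {X : Type*} [NormedAddCommGroup X] [InnerProductSpace ℂ X] [CompleteSpace X]
    (A : X →L[ℂ] X) (t : ℝ) (N : ℕ) (f : X) :
    tr A t N f = ∑ n ∈ Finset.range N,
      (((n.factorial : ℂ)⁻¹) * (-(t : ℂ) * Complex.I) ^ n) • (A ^ n) f := by
  unfold tr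
  rw [sum_apply]
  refine Finset.sum_congr rfl fun n _ => ?_
  rw [smul_pow, smul_smul, smul_apply]

theorem tau_add (f g : L2 d) : tau L (f + g) = tau L f + tau L g := by
  ext y
  show (f + g : L2 d) (rep y) = f (rep y) + g (rep y)
  rw [lp.coeFn_add]
  rfl

theorem tau_smul (c : ℂ) (f : L2 d) : tau L (c • f) = c • tau L f := by
  ext y
  show (c • f : L2 d) (rep y) = c * f (rep y)
  rw [lp.coeFn_smul]
  rfl

/-- the restriction as a linear map -/
noncomputable def tauL (d L : ℕ) [NeZero L] : L2 d →ₗ[ℂ] XT d L where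
  toFun := tau L
  map_add' := tau_add
  map_smul' := tau_smul

theorem tau_tr {lam : ℝ} {ω : (Fin d → ℤ) → ℝ} {H : L2 d →L[ℂ] L2 d} (hH : IsAnderson lam ω H)
    {f : L2 d} {R N : ℕ} (hf : SuppIn f R) (hN : 2 * (R + N) < L) (t : ℝ) :
    tauL d L (tr H t N f) = tr (HC lam (fun y : T d L => ω (rep y))) t N (tau L f) := by
  rw [tr_apply, tr_apply, map_sum]
  refine Finset.sum_congr rfl fun n hn => ?_
  rw [map_smul]
  congr 1
  have := Finset.mem_range.1 hn
  exact tau_pow hH hf n (by omega)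

theorem supp_tr {lam : ℝ} {ω : (Fin d → ℤ) → ℝ} {H : L2 d →L[ℂ] L2 d} (hH : IsAnderson lam ω H)
    {f : L2 d} {R N : ℕ} (hf : SuppIn f R) (t : ℝ) : SuppIn (tr H t N f) (R + N) := by
  intro x hx i
  rw [tr_apply, lp.coeFn_sum, Finset.sum_apply] at hx
  obtain ⟨n, hn, hn0⟩ := Finset.exists_ne_zero_of_sum_ne_zero hx
  rw [lp.coeFn_smul, Pi.smul_apply] at hn0
  have h1 : ((H ^ n) f) x ≠ 0 := right_ne_zero_of_smul hn0
  have h2 := pow_H hH hf n x h1 i
  have := Finset.mem_range.1 hn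
  omega

theorem supp_sub {f g : L2 d} {n : ℕ} (c : ℂ) (hf : SuppIn f n) (hg : SuppIn g n) :
    SuppIn (f - c • g : L2 d) n := by
  intro x hx i
  rw [lp.coeFn_sub, Pi.sub_apply, lp.coeFn_smul, Pi.smul_apply] at hx
  by_cases h1 : f x = 0
  · by_cases h2 : g x = 0
    · rw [h1, h2] at hx
      simp at hx
    · exact hg x h2 i
  · exact hf x h1 i

/-- **transfer** -/
theorem transfer {lam : ℝ} {ω : (Fin d → ℤ) → ℝ} {H K0 : L2 d →L[ℂ] L2 d}
    (hH : IsAnderson lam ω H) (hω : ∀ x, |lam * ω x| ≤ 1) (hK : IsAnderson 0 0 K0) (c : ℂ)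
    (hc : ‖c‖ = 1) (f : L2 d) (R N : ℕ) (hf : SuppIn f R) (hN : 2 * (R + N) < L) (t : ℝ)
    (ht : 24 * ((4 * d + 1) * |t|) ≤ N) :
    ‖ev H t f - c • ev K0 t f‖ ≤
      ‖ev (HC lam (fun y : T d L => ω (rep y))) t (tau L f) - c • ev H0 t (tau L f)‖ +
        4 * (Real.exp (-(N : ℝ)) * ‖f‖) := by
  have hn1 := anderson_norm hH hω
  have hn2 := anderson_norm hK (fun x => by simp)
  have hn3 : ‖(HC lam (fun y : T d L => ω (rep y)) : XT d L →L[ℂ] XT d L)‖ ≤ 4 * d + 1 :=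
    HC_norm fun x => hω (rep x)
  have hn4 : ‖(H0 : XT d L →L[ℂ] XT d L)‖ ≤ 4 * d + 1 := HC_norm fun x => by simp
  have e1 := tr_err H t _ N hn1 ht f
  have e2 := tr_err K0 t _ N hn2 ht f
  have e3 := tr_err (HC lam (fun y : T d L => ω (rep y))) t _ N hn3 ht (tau L f)
  have e4 := tr_err (H0 : XT d L →L[ℂ] XT d L) t _ N hn4 ht (tau L f)
  have hfn : ‖tau L f‖ = ‖f‖ := tau_norm_eq hf (by omega)
  rw [hfn] at e3 e4
  set S := tr H t N f - c • tr K0 t N f with hS
  have hSs : SuppIn S (R + N) := supp_sub c (supp_tr hH hf t) (supp_tr hK hf t)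
  have hSn : ‖tauL d L S‖ = ‖S‖ := tau_norm_eq hSs hN
  have hSt : tauL d L S = tr (HC lam (fun y : T d L => ω (rep y))) t N (tau L f) -
      c • tr H0 t N (tau L f) := by
    rw [hS, map_sub, map_smul, tau_tr hH hf hN t, tau_tr hK hf hN t]
    rfl
  have k1 : ‖ev H t f - c • ev K0 t f‖ ≤ ‖S‖ + 2 * (Real.exp (-(N : ℝ)) * ‖f‖) := by
    have : ev H t f - c • ev K0 t f = S + (ev H t f - tr H t N f) -
        c • (ev K0 t f - tr K0 t N f) := by
      rw [hS, smul_sub]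
      abel
    rw [this]
    calc _ ≤ ‖S + (ev H t f - tr H t N f)‖ + ‖c • (ev K0 t f - tr K0 t N f)‖ := norm_sub_le _ _
      _ ≤ (‖S‖ + ‖ev H t f - tr H t N f‖) + ‖ev K0 t f - tr K0 t N f‖ := by
          rw [norm_smul, hc, one_mul]
          gcongr
          exact norm_add_le _ _
      _ ≤ _ := by linarith
  have k2 : ‖tauL d L S‖ ≤
      ‖ev (HC lam (fun y : T d L => ω (rep y))) t (tau L f) - c • ev H0 t (tau L f)‖ +
        2 * (Real.exp (-(N : ℝ)) * ‖f‖) := by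
    rw [hSt]
    set a1 := ev (HC lam (fun y : T d L => ω (rep y))) t (tau L f)
    set a2 := ev H0 t (tau L f)
    set b1 := tr (HC lam (fun y : T d L => ω (rep y))) t N (tau L f)
    set b2 := tr H0 t N (tau L f)
    have : b1 - c • b2 = (a1 - c • a2) - (a1 - b1) + c • (a2 - b2) := by
      rw [smul_sub]
      abel
    rw [this]
    calc _ ≤ ‖(a1 - c • a2) - (a1 - b1)‖ + ‖c • (a2 - b2)‖ := norm_add_le _ _
      _ ≤ (‖a1 - c • a2‖ + ‖a1 - b1‖) + ‖a2 - b2‖ := by
          rw [norm_smul, hc, one_mul]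
          gcongr
          exact norm_sub_le _ _
      _ ≤ _ := by linarith
  rw [hSn] at k2
  linarith

end

end Pool.Agent.V8H99.AD
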