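import Pool.Agent.V8H99.AD.Pair
import Pool.Agent.V8H99.AD.Ev

/-! Operators on the torus: self-adjointness, Dirichlet form, ground state transform. -/

set_option autoImplicit false
set_option linter.unusedSectionVars false

open scoped BigOperators ComplexConjugate
open MeasureTheory

namespace Pool.Agent.V8H99.AD

open Pool.Agent.H4R2.AE

variable {d L : ℕ} [NeZero L]

/-- `ℓ²` of the torus -/
abbrev XT (d L : ℕ) [NeZero L] : Type := EuclideanSpace ℂ (T d L)

theorem HC_apply (lam : ℝ) (V : T d L → ℝ) (f : XT d L) (x : T d L) :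
    (HC lam V f) x = Bf (fun y => f y) x + ((lam * V x : ℝ) : ℂ) * f x := rfl

theorem inner_eq (f g : XT d L) : inner ℂ f g = ∑ x, conj (f x) * g x := by
  rw [PiLp.inner_apply]
  refine Finset.sum_congr rfl fun x _ => ?_
  rw [RCLike.inner_apply]
  ring

theorem norm_sq_eq_nsq (f : XT d L) : ‖f‖ ^ 2 = nsq (fun x => f x) := by
  rw [EuclideanSpace.norm_sq_eq]
  rfl

theorem norm_eq_nsq (f : XT d L) : ‖f‖ = √(nsq (fun x => f x)) := by
  rw [← norm_sq_eq_nsq, Real.sqrt_sq (norm_nonneg _)]

theorem bf_left (f g : T d L → ℂ) : ∑ x, conj (Bf f x) * g x =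
    ∑ i : Fin d, ∑ x, conj (f x - f (x + Pi.single i 1)) * (g x - g (x + Pi.single i 1)) := by
  have h : ∑ x, conj (Bf f x) * g x = ∑ x : T d L, ∑ i : Fin d,
      ((fun x y : T d L => conj (f x - f y) * g x) x (x + Pi.single i 1) +
      (fun x y : T d L => conj (f x - f y) * g x) x (x - Pi.single i 1)) := by
    refine Finset.sum_congr rfl fun x _ => ?_
    unfold Bf
    rw [map_sum, Finset.sum_mul]
    refine Finset.sum_congr rfl fun i _ => ?_
    simp only [map_sub, map_mul, map_ofNat]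
    ring
  rw [h, sum_nbr (fun x y : T d L => conj (f x - f y) * g x)]
  refine Finset.sum_congr rfl fun i _ => Finset.sum_congr rfl fun x _ => ?_
  simp only [map_sub]
  ring

theorem bf_right (f g : T d L → ℂ) : ∑ x, conj (f x) * Bf g x =
    ∑ i : Fin d, ∑ x, conj (f x - f (x + Pi.single i 1)) * (g x - g (x + Pi.single i 1)) := by
  have h : ∑ x, conj (f x) * Bf g x = ∑ x : T d L, ∑ i : Fin d,
      ((fun x y : T d L => conj (f x) * (g x - g y)) x (x + Pi.single i 1) +
      (fun x y : T d L => conj (f x) * (g x - g y)) x (x - Pi.single i 1)) := by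
    refine Finset.sum_congr rfl fun x _ => ?_
    unfold Bf
    rw [Finset.mul_sum]
    refine Finset.sum_congr rfl fun i _ => ?_
    ring
  rw [h, sum_nbr (fun x y : T d L => conj (f x) * (g x - g y))]
  refine Finset.sum_congr rfl fun i _ => Finset.sum_congr rfl fun x _ => ?_
  simp only [map_sub]
  ring

theorem bf_dir (f : T d L → ℂ) : ∑ x, conj (f x) * Bf f x = ((Dir f : ℝ) : ℂ) := by
  rw [bf_right]
  unfold Dir
  push_cast
  refine Finset.sum_congr rfl fun i _ => Finset.sum_congr rfl fun x _ => ?_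
  rw [mul_comm, Complex.mul_conj, Complex.normSq_eq_norm_sq]
  push_cast
  rfl

theorem HC_symm (lam : ℝ) (V : T d L → ℝ) (f g : XT d L) :
    inner ℂ (HC lam V f) g = inner ℂ f (HC lam V g) := by
  rw [inner_eq, inner_eq]
  simp only [HC_apply, map_add, map_mul, Complex.conj_ofReal, mul_add, add_mul,
    Finset.sum_add_distrib]
  rw [bf_left, bf_right]
  congr 1
  refine Finset.sum_congr rfl fun x _ => ?_
  ring

theorem HC_sa (lam : ℝ) (V : T d L → ℝ) : IsSelfAdjoint (HC lam V : XT d L →L[ℂ] XT d L) := by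
  rw [ContinuousLinearMap.isSelfAdjoint_iff_isSymmetric]
  intro f g
  exact HC_symm lam V f g

/-- the shifted operator -/
noncomputable def Aop (lam E : ℝ) (V : T d L → ℝ) : XT d L →L[ℂ] XT d L :=
  HC lam V - ((E : ℝ) : ℂ) • ContinuousLinearMap.id ℂ (XT d L)

theorem Aop_sa (lam E : ℝ) (V : T d L → ℝ) : IsSelfAdjoint (Aop lam E V : XT d L →L[ℂ] XT d L) := by
  rw [ContinuousLinearMap.isSelfAdjoint_iff_isSymmetric]
  intro f g
  show inner ℂ (Aop lam E V f) g = inner ℂ f (Aop lam E V g)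
  unfold Aop
  simp only [sub_apply, smul_apply,
    ContinuousLinearMap.id_apply, inner_sub_left, inner_sub_right, inner_smul_left,
    inner_smul_right, Complex.conj_ofReal]
  rw [HC_symm]

/-- multiplication by a real function -/
noncomputable def Mu (c : T d L → ℝ) : XT d L →L[ℂ] XT d L :=
  LinearMap.toContinuousLinearMap
    { toFun := fun f => WithLp.toLp 2 fun x => ((c x : ℝ) : ℂ) * f x
      map_add' := fun f g => by
        ext x
        simp only [PiLp.add_apply]
        ring
      map_smul' := fun a f => by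
        ext x
        simp only [PiLp.smul_apply, smul_eq_mul, RingHom.id_apply]
        ring }

theorem Mu_apply (c : T d L → ℝ) (f : XT d L) (x : T d L) : (Mu c f) x = (c x : ℂ) * f x := rfl

theorem Mu_norm_le (c : T d L → ℝ) (C : ℝ) (hC : 0 ≤ C) (h : ∀ x, |c x| ≤ C) (f : XT d L) :
    ‖Mu c f‖ ≤ C * ‖f‖ := by
  have h1 : ‖Mu c f‖ ^ 2 ≤ (C * ‖f‖) ^ 2 := by
    rw [mul_pow, norm_sq_eq_nsq, norm_sq_eq_nsq]
    unfold nsq
    rw [Finset.mul_sum]
    refine Finset.sum_le_sum fun x _ => ?_
    show ‖(Mu c f) x‖ ^ 2 ≤ C ^ 2 * ‖f x‖ ^ 2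
    rw [Mu_apply, norm_mul, mul_pow, Complex.norm_real, Real.norm_eq_abs]
    gcongr
    exact h x
  exact (abs_le_of_sq_le_sq' h1 (by positivity)).2

theorem Mu_sub (c : T d L → ℝ) (f : XT d L) : f - Mu c f = Mu (fun x => 1 - c x) f := by
  ext x
  show f x - (Mu c f) x = (Mu (fun x => 1 - c x) f) x
  rw [Mu_apply, Mu_apply]
  push_cast
  ring

/-- the ground state transform of the operator -/
noncomputable def Wf (u : T d L → ℝ) (h : T d L → ℂ) (x : T d L) : ℂ :=
  ∑ i : Fin d, ((u (x + Pi.single i 1) : ℂ) * (h x - h (x + Pi.single i 1)) +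
    (u (x - Pi.single i 1) : ℂ) * (h x - h (x - Pi.single i 1)))

/-- `u = e^w` solves the massive equation -/
def MassEq (lam E κ : ℝ) (V w : T d L → ℝ) : Prop :=
  ∀ x, ∑ i : Fin d, ((1 - Real.exp (w (x + Pi.single i 1) - w x)) +
      (1 - Real.exp (w (x - Pi.single i 1) - w x))) + lam * V x - E + κ * w x = 0

theorem mass_eq' {lam E κ : ℝ} {V w : T d L → ℝ} (h : MassEq lam E κ V w) (x : T d L) :
    (lam * V x - E) * Real.exp (w x) = -(κ * w x * Real.exp (w x)) -
      ∑ i : Fin d, ((Real.exp (w x) - Real.exp (w (x + Pi.single i 1))) +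
        (Real.exp (w x) - Real.exp (w (x - Pi.single i 1)))) := by
  have h1 : ∑ i : Fin d, ((Real.exp (w x) - Real.exp (w (x + Pi.single i 1))) +
        (Real.exp (w x) - Real.exp (w (x - Pi.single i 1)))) =
      Real.exp (w x) * ∑ i : Fin d, ((1 - Real.exp (w (x + Pi.single i 1) - w x)) +
      (1 - Real.exp (w (x - Pi.single i 1) - w x))) := by
    rw [Finset.mul_sum]
    refine Finset.sum_congr rfl fun i _ => ?_
    rw [Real.exp_sub, Real.exp_sub]
    have := Real.exp_pos (w x)
    field_simp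
  rw [h1]
  have h2 := h x
  have h3 : ∑ i : Fin d, ((1 - Real.exp (w (x + Pi.single i 1) - w x)) +
      (1 - Real.exp (w (x - Pi.single i 1) - w x))) = -(lam * V x - E + κ * w x) := by linarith
  rw [h3]
  ring

theorem Aop_Mu {lam E κ : ℝ} {V w : T d L → ℝ} (h : MassEq lam E κ V w) (f : XT d L) (x : T d L) :
    (Aop lam E V (Mu (fun y => Real.exp (w y)) f)) x =
      Wf (fun y => Real.exp (w y)) (fun y => f y) x -
        ((κ * w x * Real.exp (w x) : ℝ) : ℂ) * f x := by
  have h1 : (Aop lam E V (Mu (fun y => Real.exp (w y)) f)) x =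
      Bf (fun y => (Real.exp (w y) : ℂ) * f y) x +
        (((lam * V x - E) * Real.exp (w x) : ℝ) : ℂ) * f x := by
    unfold Aop
    show (HC lam V (Mu (fun y => Real.exp (w y)) f)) x -
      (E : ℂ) * (Mu (fun y => Real.exp (w y)) f) x = _
    rw [HC_apply, Mu_apply]
    have : (fun y => (Mu (fun y => Real.exp (w y)) f) y) =
        fun y => ((Real.exp (w y) : ℝ) : ℂ) * f y := rfl
    rw [this]
    push_cast
    ring
  rw [h1, mass_eq' h x]
  unfold Bf Wf
  push_cast
  have h2 : ∑ i : Fin d, ((Complex.exp ↑(w (x + Pi.single i 1))) * (f x - f (x + Pi.single i 1)) +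
      (Complex.exp ↑(w (x - Pi.single i 1))) * (f x - f (x - Pi.single i 1))) =
      ∑ i : Fin d, (2 * (Complex.exp ↑(w x) * f x) - Complex.exp ↑(w (x + Pi.single i 1)) *
        f (x + Pi.single i 1) - Complex.exp ↑(w (x - Pi.single i 1)) * f (x - Pi.single i 1)) -
      (∑ i : Fin d, ((Complex.exp ↑(w x) - Complex.exp ↑(w (x + Pi.single i 1))) +
        (Complex.exp ↑(w x) - Complex.exp ↑(w (x - Pi.single i 1))))) * f x := by
    rw [Finset.sum_mul, ← Finset.sum_sub_distrib]
    refine Finset.sum_congr rfl fun i _ => ?_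
    ring
  rw [h2]
  ring

/-- energy identity -/
theorem energy {lam E κ : ℝ} {V w : T d L → ℝ} (h : MassEq lam E κ V w) (f : XT d L) :
    inner ℂ (Mu (fun y => Real.exp (w y)) f) (Aop lam E V (Mu (fun y => Real.exp (w y)) f)) =
      (((∑ i : Fin d, ∑ x, Real.exp (w x) * Real.exp (w (x + Pi.single i 1)) *
        ‖f x - f (x + Pi.single i 1)‖ ^ 2) -
        κ * ∑ x, w x * ‖(Mu (fun y => Real.exp (w y)) f) x‖ ^ 2 : ℝ) : ℂ) := by
  rw [inner_eq]
  simp only [Aop_Mu h, mul_sub, Finset.sum_sub_distrib]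
  have h1 : ∑ x, conj ((Mu (fun y => Real.exp (w y)) f) x) *
      Wf (fun y => Real.exp (w y)) (fun y => f y) x =
      ((∑ i : Fin d, ∑ x, Real.exp (w x) * Real.exp (w (x + Pi.single i 1)) *
        ‖f x - f (x + Pi.single i 1)‖ ^ 2 : ℝ) : ℂ) := by
    have h2 : ∑ x, conj ((Mu (fun y => Real.exp (w y)) f) x) *
        Wf (fun y => Real.exp (w y)) (fun y => f y) x = ∑ x : T d L, ∑ i : Fin d,
        ((fun x y : T d L => ((Real.exp (w x) * Real.exp (w y) : ℝ) : ℂ) *
          (conj (f x) * (f x - f y))) x (x + Pi.single i 1) +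
        (fun x y : T d L => ((Real.exp (w x) * Real.exp (w y) : ℝ) : ℂ) *
          (conj (f x) * (f x - f y))) x (x - Pi.single i 1)) := by
      refine Finset.sum_congr rfl fun x _ => ?_
      unfold Wf
      rw [Mu_apply, Finset.mul_sum]
      refine Finset.sum_congr rfl fun i _ => ?_
      simp only [map_mul, Complex.conj_ofReal]
      push_cast
      ring
    rw [h2, sum_nbr (fun x y : T d L => ((Real.exp (w x) * Real.exp (w y) : ℝ) : ℂ) *
          (conj (f x) * (f x - f y)))]
    rw [Complex.ofReal_sum]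
    refine Finset.sum_congr rfl fun i _ => ?_
    rw [Complex.ofReal_sum]
    refine Finset.sum_congr rfl fun x _ => ?_
    have e : ((‖f x - f (x + Pi.single i 1)‖ ^ 2 : ℝ) : ℂ) =
        (f x - f (x + Pi.single i 1)) * conj (f x - f (x + Pi.single i 1)) := by
      rw [Complex.mul_conj, Complex.normSq_eq_norm_sq]
    rw [Complex.ofReal_mul (Real.exp (w x) * Real.exp (w (x + Pi.single i 1))), e]
    simp only [map_sub]
    push_cast
    ring
  rw [h1, Complex.ofReal_sub]
  congr 1
  rw [Finset.mul_sum, Complex.ofReal_sum]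
  refine Finset.sum_congr rfl fun x _ => ?_
  have e : ((‖(Mu (fun y => Real.exp (w y)) f) x‖ ^ 2 : ℝ) : ℂ) =
      conj ((Mu (fun y => Real.exp (w y)) f) x) * (Mu (fun y => Real.exp (w y)) f) x := by
    rw [mul_comm, Complex.mul_conj, Complex.normSq_eq_norm_sq]
  rw [Complex.ofReal_mul κ, Complex.ofReal_mul (w x), e, Mu_apply]
  push_cast
  ring

/-- the commutator -/
theorem comm_eq {lam E κ : ℝ} {V w : T d L → ℝ} (h : MassEq lam E κ V w) (g : XT d L) (x : T d L) :
    (Aop lam E V (Mu (fun y => Real.exp (w y)) g) - Mu (fun y => Real.exp (w y)) (HC 0 (0 : T d L → ℝ) g)) x =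
      Rf (fun y => Real.exp (w y)) (fun y => g y) x -
        ((κ * w x * Real.exp (w x) : ℝ) : ℂ) * g x := by
  show (Aop lam E V (Mu (fun y => Real.exp (w y)) g)) x -
    (Mu (fun y => Real.exp (w y)) (HC 0 (0 : T d L → ℝ) g)) x = _
  rw [Aop_Mu h, Mu_apply, HC_apply]
  have h1 : Wf (fun y => Real.exp (w y)) (fun y => g y) x -
      ((Real.exp (w x) : ℝ) : ℂ) * Bf (fun y => g y) x =
      Rf (fun y => Real.exp (w y)) (fun y => g y) x := by
    unfold Wf Rf Bf
    rw [Finset.mul_sum, ← Finset.sum_sub_distrib]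
    refine Finset.sum_congr rfl fun i _ => ?_
    push_cast
    ring
  rw [← h1]
  simp
  ring

end Pool.Agent.V8H99.AD
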