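import Pool.Agent.V8H99.AD.GreenB
import Pool.Agent.V8H99.AD.TorOp

/-! Choice of the parameters: the good event on the torus. -/

set_option autoImplicit false
set_option linter.unusedSectionVars false

open scoped BigOperators
open MeasureTheory

namespace Pool.Agent.V8H99.AD

open Pool.Agent.H4R2.AE

/-- the length scale `ℓ` as a function of `r = δ / lam`: `k r² / log r` in dimension three,
`exp (k r)` in dimension four, `exp (k r^(d/2))` in higher dimension -/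
noncomputable def scl (d : ℕ) (k r : ℝ) : ℝ :=
  if d = 3 then k * r ^ 2 / Real.log r
  else if d = 4 then Real.exp (k * r) else Real.exp (k * r ^ ((d : ℝ) / 2))

theorem scl_ge (d : ℕ) (hd : 3 ≤ d) (k r : ℝ) (hk : 0 < k) (hr : 3 ≤ r) : k * r ≤ scl d k r := by
  have hlog1 : 1 ≤ Real.log r := by
    rw [Real.le_log_iff_exp_le (by linarith)]
    have := Real.exp_one_lt_d9
    linarith
  unfold scl
  split_ifs with h3 h4
  · rw [le_div_iff₀ (by linarith)]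
    have := Real.log_le_sub_one_of_pos (show 0 < r by linarith)
    have h5 : k * r * Real.log r ≤ k * r * r := by gcongr; linarith
    linarith
  · have := Real.add_one_le_exp (k * r)
    linarith
  · have h1 := Real.add_one_le_exp (k * r ^ ((d : ℝ) / 2))
    have h2 : r ≤ r ^ ((d : ℝ) / 2) := by
      have hd3 : (3 : ℝ) ≤ d := by exact_mod_cast hd
      calc r = r ^ (1 : ℝ) := (Real.rpow_one r).symm
        _ ≤ _ := Real.rpow_le_rpow_of_exponent_le (by linarith) (by linarith)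
    have h3 : k * r ≤ k * r ^ ((d : ℝ) / 2) := by gcongr
    linarith

/-- the elementary union bound -/
theorem union_num (d N : ℕ) (ℓ e : ℝ) (hℓ : 1 ≤ ℓ) (L : ℕ) (hL : (L : ℝ) ≤ 2 * ℓ ^ (N + 2))
    (he : e ≤ -((d + 1) * Real.log 2) - ((N + 2) * d + N : ℕ) * Real.log ℓ) :
    (L : ℝ) ^ d * (2 * Real.exp e) ≤ (ℓ ^ N)⁻¹ := by
  have hℓ0 : 0 < ℓ := by linarith
  have h1 : (L : ℝ) ^ d ≤ (2 * ℓ ^ (N + 2)) ^ d := pow_le_pow_left₀ (by positivity) hL d
  have h2 : Real.exp e ≤ (2 ^ (d + 1))⁻¹ * (ℓ ^ ((N + 2) * d + N))⁻¹ := by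
    refine (Real.exp_le_exp.2 he).trans (le_of_eq ?_)
    rw [sub_eq_add_neg, Real.exp_add, Real.exp_neg, Real.exp_neg]
    congr 2
    · rw [show ((d : ℝ) + 1) = ((d + 1 : ℕ) : ℝ) by push_cast; ring, Real.exp_nat_mul,
        Real.exp_log (by norm_num)]
    · rw [Real.exp_nat_mul, Real.exp_log hℓ0]
  calc (L : ℝ) ^ d * (2 * Real.exp e)
      ≤ (2 * ℓ ^ (N + 2)) ^ d * (2 * ((2 ^ (d + 1))⁻¹ * (ℓ ^ ((N + 2) * d + N))⁻¹)) := by gcongr
    _ = (ℓ ^ N)⁻¹ := by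
        rw [mul_pow, ← pow_mul, pow_succ 2 d, pow_add ℓ ((N + 2) * d) N]
        field_simp

/-- the parameters in dimension at least five -/
theorem par5 (d N : ℕ) (hd : 5 ≤ d) : ∃ k K : ℝ, 0 < k ∧ 3 ≤ K ∧ ∀ lam δ : ℝ, 0 < lam →
    K * lam ≤ δ → δ ≤ 1 / 8 → ∀ (L : ℕ) [NeZero L],
    1 ≤ scl d k (δ / lam) → (L : ℝ) ≤ 2 * scl d k (δ / lam) ^ (N + 2) →
    scl d k (δ / lam) ≤ L →
    ∃ p R θ : ℝ, 1 < p ∧ 0 ≤ R ∧ 0 < θ ∧
      (∀ (u Gr : T d L → ℝ) (x0 : T d L), (∀ x, 1 / 2 ≤ u x) → (∀ x, 0 ≤ Gr x) →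
      (∀ x, LapW u Gr x + (scl d k (δ / lam) ^ 2)⁻¹ * Real.exp (-(4 * δ)) * Gr x =
        if x = x0 then 1 else 0) →
      ∀ θ : ℝ, 0 < θ → ∑ z, min ((θ * Gr z) ^ 2) (θ * Gr z) ≤ R * θ ^ p) ∧
      (L : ℝ) ^ d * (2 * Real.exp (-(θ * δ) + R * (6 * lam * θ) ^ p / (p - 1))) ≤
        (scl d k (δ / lam) ^ N)⁻¹ := by
  obtain ⟨R, hR, HR⟩ := green5 d hd
  obtain ⟨b, hb, Hb⟩ := Arith2.site_five d hd R 1 hR one_pos
  set M : ℕ := (N + 2) * d + N with hM
  have hd3 : d ≠ 3 := by omega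
  have hd4 : d ≠ 4 := by omega
  refine ⟨b / (2 * (M + 1)), max 3 (2 * (d + 1) / b), by positivity, le_max_left _ _, ?_⟩
  intro lam δ hlam hK hδ L _ hℓ1 hL hL'
  set r := δ / lam with hr
  have hδ0 : 0 < δ := by
    have : 0 < max 3 (2 * ((d : ℝ) + 1) / b) * lam := by positivity
    linarith
  have hrK : max 3 (2 * ((d : ℝ) + 1) / b) ≤ r := by rw [hr, le_div_iff₀ hlam]; exact hK
  have hr3 : 3 ≤ r := (le_max_left _ _).trans hrK
  have hrb : 2 * ((d : ℝ) + 1) / b ≤ r := (le_max_right _ _).trans hrK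
  have hr0 : 0 < r := by linarith
  obtain ⟨θ, hθ, hθ2⟩ := Hb (1 / r) (by positivity)
  rw [mul_one] at hθ2
  have hθδ : θ / δ * δ = θ := by field_simp
  have h6 : 6 * lam * (θ / δ) = 6 * (1 / r) * θ := by
    rw [hr]; field_simp
  refine ⟨Arith2.pe d, R, θ / δ, Arith2.pe_gt_one d (by omega), hR, by positivity, ?_, ?_⟩
  · refine HR L _ ?_
    have hL0 : (0 : ℝ) < L := by exact_mod_cast NeZero.pos L
    have hℓ0 : 0 < scl d (b / (2 * (M + 1))) r := by linarith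
    have he : (1 / 8 : ℝ) ≤ Real.exp (-(4 * δ)) := by
      have := Real.add_one_le_exp (-(4 * δ))
      linarith
    calc 1 / (8 * (L : ℝ) ^ 2) = ((L : ℝ) ^ 2)⁻¹ * (1 / 8) := by field_simp
      _ ≤ (scl d (b / (2 * (M + 1))) r ^ 2)⁻¹ * Real.exp (-(4 * δ)) := by gcongr
  · refine union_num d N _ _ hℓ1 L hL ?_
    rw [hθδ, h6]
    refine (hθ2.trans ?_)
    have e1 : -b / Pool.Agent.H4R2.AE.scaleS d (1 / r) = -(b * r ^ ((d : ℝ) / 2)) := by
      have e2 : Pool.Agent.H4R2.AE.scaleS d (1 / r) = (r ^ ((d : ℝ) / 2))⁻¹ := by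
        simp only [Pool.Agent.H4R2.AE.scaleS, if_neg hd4]
        rw [Real.sqrt_eq_rpow, ← Real.rpow_natCast, ← Real.rpow_mul (by positivity),
          one_div, Real.inv_rpow hr0.le]
        congr 2
        ring
      rw [e2]
      field_simp
    rw [e1]
    have e3 : Real.log (scl d (b / (2 * (M + 1))) r) = b / (2 * (M + 1)) * r ^ ((d : ℝ) / 2) := by
      unfold scl
      rw [if_neg hd3, if_neg hd4, Real.log_exp]
    rw [e3]
    have h2 : r ≤ r ^ ((d : ℝ) / 2) := by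
      have hd5 : (5 : ℝ) ≤ d := by exact_mod_cast hd
      calc r = r ^ (1 : ℝ) := (Real.rpow_one r).symm
        _ ≤ _ := Real.rpow_le_rpow_of_exponent_le (by linarith) (by linarith)
    set Q := r ^ ((d : ℝ) / 2) with hQ
    have h3 : ((M : ℕ) : ℝ) * (b / (2 * (M + 1)) * Q) ≤ b / 2 * Q := by
      have : ((M : ℕ) : ℝ) * (b / (2 * (M + 1)) * Q) = (M / (M + 1)) * (b / 2 * Q) := by
        field_simp
      rw [this]
      have h4 : (M : ℝ) / (M + 1) ≤ 1 := by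
        rw [div_le_one (by positivity)]; linarith
      have h5 : 0 ≤ b / 2 * Q := by
        have : 0 < Q := by linarith
        positivity
      nlinarith
    have h4 : ((d : ℝ) + 1) * Real.log 2 ≤ b / 2 * Q := by
      have l2 : Real.log 2 ≤ 1 := by
        have := Real.log_two_lt_d9
        linarith
      have l0 : 0 ≤ Real.log 2 := Real.log_nonneg (by norm_num)
      have h5 : 2 * ((d : ℝ) + 1) ≤ b * r := by
        rw [div_le_iff₀ hb] at hrb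
        linarith
      have h6 : b * r ≤ b * Q := by gcongr
      nlinarith
    linarith

/-- the parameters in dimension four -/
theorem par4 (N : ℕ) : ∃ k K : ℝ, 0 < k ∧ 3 ≤ K ∧ ∀ lam δ : ℝ, 0 < lam →
    K * lam ≤ δ → δ ≤ 1 / 8 → ∀ (L : ℕ) [NeZero L],
    1 ≤ scl 4 k (δ / lam) → (L : ℝ) ≤ 2 * scl 4 k (δ / lam) ^ (N + 2) →
    scl 4 k (δ / lam) ≤ L →
    ∃ p R θ : ℝ, 1 < p ∧ 0 ≤ R ∧ 0 < θ ∧
      (∀ (u Gr : T 4 L → ℝ) (x0 : T 4 L), (∀ x, 1 / 2 ≤ u x) → (∀ x, 0 ≤ Gr x) →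
      (∀ x, LapW u Gr x + (scl 4 k (δ / lam) ^ 2)⁻¹ * Real.exp (-(4 * δ)) * Gr x =
        if x = x0 then 1 else 0) →
      ∀ θ : ℝ, 0 < θ → ∑ z, min ((θ * Gr z) ^ 2) (θ * Gr z) ≤ R * θ ^ p) ∧
      (L : ℝ) ^ 4 * (2 * Real.exp (-(θ * δ) + R * (6 * lam * θ) ^ p / (p - 1))) ≤
        (scl 4 k (δ / lam) ^ N)⁻¹ := by
  obtain ⟨A, hA, HA⟩ := green4
  obtain ⟨b, hb, hb1, Hb⟩ := Arith2.site_four A 1 hA one_pos
  set M : ℕ := (N + 2) * 4 + N with hM
  refine ⟨min (b / (2 * (N + 3))) (1 / (4 * (M + 1))), max 20 (2 / b), by positivity,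
    (by norm_num : (3 : ℝ) ≤ 20).trans (le_max_left _ _), ?_⟩
  intro lam δ hlam hK hδ L _ hℓ1 hL hL'
  set k := min (b / (2 * ((N : ℝ) + 3))) (1 / (4 * ((M : ℝ) + 1))) with hk
  have hk0 : 0 < k := by positivity
  set r := δ / lam with hr
  have hδ0 : 0 < δ := by
    have : 0 < max 20 (2 / b) * lam := by positivity
    linarith
  have hrK : max 20 (2 / b) ≤ r := by rw [hr, le_div_iff₀ hlam]; exact hK
  have hr20 : 20 ≤ r := (le_max_left _ _).trans hrK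
  have hrb : 2 / b ≤ r := (le_max_right _ _).trans hrK
  have hr0 : 0 < r := by linarith
  have hL1 : 1 ≤ L := NeZero.one_le
  have hscl : scl 4 k r = Real.exp (k * r) := by
    unfold scl
    rw [if_neg (by norm_num), if_pos rfl]
  have hLb : (L : ℝ) ≤ Real.exp (b / (1 / r)) := by
    refine hL.trans ?_
    rw [hscl, ← Real.exp_nat_mul]
    have h2 : (2 : ℝ) ≤ Real.exp (b * r / 2) := by
      have h3 : 1 ≤ b * r / 2 := by
        rw [div_le_iff₀ hb] at hrb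
        linarith
      have := Real.add_one_le_exp (b * r / 2)
      linarith
    calc 2 * Real.exp ((N + 2 : ℕ) * (k * r)) ≤ Real.exp (b * r / 2) * Real.exp (b * r / 2) := by
          gcongr
          have h4 : k ≤ b / (2 * ((N : ℝ) + 3)) := min_le_left _ _
          have h5 : ((N + 2 : ℕ) : ℝ) * k ≤ b / 2 := by
            calc ((N + 2 : ℕ) : ℝ) * k ≤ ((N : ℝ) + 3) * (b / (2 * ((N : ℝ) + 3))) := by
                  push_cast
                  gcongr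
                  linarith
              _ = b / 2 := by field_simp
          nlinarith
      _ = Real.exp (b / (1 / r)) := by
          rw [← Real.exp_add]
          congr 1
          field_simp
          ring
  obtain ⟨θ, hθ, hθ2⟩ := Hb (1 / r) (by positivity) (by
    rw [div_le_iff₀ hr0]
    rw [div_le_iff₀ hb] at hrb
    linarith) L hL1 hLb
  rw [mul_one] at hθ2
  have hθδ : θ / δ * δ = θ := by field_simp
  have h6 : 6 * lam * (θ / δ) = 6 * (1 / r) * θ := by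
    rw [hr]; field_simp
  have hlogL0 : 0 ≤ Real.log (L : ℝ) := Real.log_nonneg (by exact_mod_cast hL1)
  refine ⟨2, A * (1 + 4 * Real.log (L : ℝ)), θ / δ, by norm_num, by positivity, by positivity,
    ?_, ?_⟩
  · refine HA L _ ?_
    have hL0 : (0 : ℝ) < L := by exact_mod_cast NeZero.pos L
    have hℓ0 : 0 < scl 4 k r := by linarith
    have he : (1 / 8 : ℝ) ≤ Real.exp (-(4 * δ)) := by
      have := Real.add_one_le_exp (-(4 * δ))
      linarith
    calc 1 / (8 * (L : ℝ) ^ 2) = ((L : ℝ) ^ 2)⁻¹ * (1 / 8) := by field_simp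
      _ ≤ (scl 4 k r ^ 2)⁻¹ * Real.exp (-(4 * δ)) := by gcongr
  · refine union_num 4 N _ _ hℓ1 L hL ?_
    rw [hθδ, h6]
    refine (hθ2.trans ?_)
    have e1 : -(1 / 2 : ℝ) / (1 / r) = -(r / 2) := by field_simp
    rw [e1, hscl, Real.log_exp]
    have h4 : k ≤ 1 / (4 * ((M : ℝ) + 1)) := min_le_right _ _
    have h5 : ((M : ℕ) : ℝ) * (k * r) ≤ r / 4 := by
      have : (M : ℝ) * k ≤ 1 / 4 := by
        calc (M : ℝ) * k ≤ ((M : ℝ) + 1) * (1 / (4 * ((M : ℝ) + 1))) := by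
              gcongr
              linarith
          _ = 1 / 4 := by field_simp
      nlinarith
    have l2 : Real.log 2 ≤ 1 := by
      have := Real.log_two_lt_d9
      linarith
    have hMc : (((N + 2) * 4 + N : ℕ) : ℝ) = ((M : ℕ) : ℝ) := by rw [hM]
    rw [hMc]
    push_cast
    linarith

/-- the parameters in dimension three -/
theorem par3 (N : ℕ) : ∃ k K : ℝ, 0 < k ∧ 3 ≤ K ∧ ∀ lam δ : ℝ, 0 < lam →
    K * lam ≤ δ → δ ≤ 1 / 8 → ∀ (L : ℕ) [NeZero L],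
    1 ≤ scl 3 k (δ / lam) → (L : ℝ) ≤ 2 * scl 3 k (δ / lam) ^ (N + 2) →
    scl 3 k (δ / lam) ≤ L →
    ∃ p R θ : ℝ, 1 < p ∧ 0 ≤ R ∧ 0 < θ ∧
      (∀ (u Gr : T 3 L → ℝ) (x0 : T 3 L), (∀ x, 1 / 2 ≤ u x) → (∀ x, 0 ≤ Gr x) →
      (∀ x, LapW u Gr x + (scl 3 k (δ / lam) ^ 2)⁻¹ * Real.exp (-(4 * δ)) * Gr x =
        if x = x0 then 1 else 0) →
      ∀ θ : ℝ, 0 < θ → ∑ z, min ((θ * Gr z) ^ 2) (θ * Gr z) ≤ R * θ ^ p) ∧
      (L : ℝ) ^ 3 * (2 * Real.exp (-(θ * δ) + R * (6 * lam * θ) ^ p / (p - 1))) ≤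
        (scl 3 k (δ / lam) ^ N)⁻¹ := by
  obtain ⟨R, hR, HR⟩ := green3
  set M : ℕ := (N + 2) * 3 + N with hM
  set k : ℝ := min 1 (1 / (288 * R * (2 * M + 4))) with hk
  have hk0 : 0 < k := by positivity
  refine ⟨k, 3, hk0, le_refl _, ?_⟩
  intro lam δ hlam hK hδ L _ hℓ1 hL hL'
  set r := δ / lam with hr
  have hδ0 : 0 < δ := by
    have : 0 < 3 * lam := by positivity
    linarith
  have hr3 : 3 ≤ r := by rw [hr, le_div_iff₀ hlam]; exact hK
  have hr0 : 0 < r := by linarith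
  have hlog1 : 1 ≤ Real.log r := by
    rw [Real.le_log_iff_exp_le (by linarith)]
    have := Real.exp_one_lt_d9
    linarith
  have hscl : scl 3 k r = k * r ^ 2 / Real.log r := by
    unfold scl
    rw [if_pos rfl]
  set ℓ := scl 3 k r with hℓ
  have hℓ0 : 0 < ℓ := by linarith
  have hL0 : (0 : ℝ) < L := by exact_mod_cast NeZero.pos L
  have he : (1 / 4 : ℝ) ≤ Real.exp (-(4 * δ)) := by
    have := Real.add_one_le_exp (-(4 * δ))
    linarith
  set κ' := (ℓ ^ 2)⁻¹ * Real.exp (-(4 * δ)) with hκ'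
  have hκ'0 : 0 < κ' := by positivity
  have hκ1 : (1 / (2 * ℓ)) ≤ √κ' := by
    apply Real.le_sqrt_of_sq_le
    rw [hκ']
    calc (1 / (2 * ℓ)) ^ 2 = (ℓ ^ 2)⁻¹ * (1 / 4) := by field_simp; ring
      _ ≤ _ := by gcongr
  have hsκ : 0 < √κ' := Real.sqrt_pos.2 hκ'0
  set R' := R / √κ' with hR'
  have hR'0 : 0 < R' := by positivity
  have hR'le : R' ≤ 2 * R * ℓ := by
    rw [hR', div_le_iff₀ hsκ]
    calc R = 2 * R * ℓ * (1 / (2 * ℓ)) := by field_simp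
      _ ≤ _ := by gcongr
  refine ⟨2, R', δ / (72 * R' * lam ^ 2), by norm_num, hR'0.le, by positivity, ?_, ?_⟩
  · refine HR L _ ?_
    calc 1 / (8 * (L : ℝ) ^ 2) = ((L : ℝ) ^ 2)⁻¹ * (1 / 8) := by field_simp
      _ ≤ (ℓ ^ 2)⁻¹ * Real.exp (-(4 * δ)) := by gcongr; linarith
  · refine union_num 3 N _ _ hℓ1 L hL ?_
    have e1 : -(δ / (72 * R' * lam ^ 2) * δ) + R' * (6 * lam * (δ / (72 * R' * lam ^ 2))) ^ (2 : ℝ) /
        (2 - 1) = -(r ^ 2 / (144 * R')) := by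
      rw [Real.rpow_two, hr]
      field_simp
      ring
    rw [e1]
    have hlogr0 : 0 < Real.log r := by linarith
    have h1 : Real.log r * (2 * M + 4) ≤ r ^ 2 / (144 * R') := by
      rw [le_div_iff₀ (by positivity)]
      have h2 : 144 * R' ≤ 288 * R * ℓ := by linarith
      have h3 : ℓ * Real.log r = k * r ^ 2 := by
        rw [hscl]
        field_simp
      have h4 : k * (288 * R * (2 * M + 4)) ≤ 1 := by
        have : k ≤ 1 / (288 * R * (2 * M + 4)) := min_le_right _ _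
        calc k * (288 * R * (2 * M + 4)) ≤ 1 / (288 * R * (2 * M + 4)) * (288 * R * (2 * M + 4)) := by
              gcongr
          _ = 1 := by field_simp
      calc Real.log r * (2 * M + 4) * (144 * R') ≤ Real.log r * (2 * M + 4) * (288 * R * ℓ) := by
            gcongr
        _ = (ℓ * Real.log r) * (288 * R * (2 * M + 4)) := by ring
        _ = r ^ 2 * (k * (288 * R * (2 * M + 4))) := by rw [h3]; ring
        _ ≤ r ^ 2 * 1 := by gcongr
        _ = r ^ 2 := mul_one _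
    have h5 : Real.log ℓ ≤ 2 * Real.log r := by
      rw [hscl]
      calc Real.log (k * r ^ 2 / Real.log r) ≤ Real.log (r ^ 2) := by
            apply Real.log_le_log (by positivity)
            rw [div_le_iff₀ hlogr0]
            have hk1 : k ≤ 1 := min_le_left _ _
            have : k * r ^ 2 ≤ 1 * r ^ 2 := by gcongr
            nlinarith [sq_nonneg r]
        _ = 2 * Real.log r := by rw [Real.log_pow]; norm_num
    have l2 : Real.log 2 ≤ 1 := by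
      have := Real.log_two_lt_d9
      linarith
    have hMc : (((N + 2) * 3 + N : ℕ) : ℝ) = ((M : ℕ) : ℝ) := by rw [hM]
    rw [hMc]
    have h6 : (M : ℝ) * Real.log ℓ ≤ (M : ℝ) * (2 * Real.log r) := by gcongr
    push_cast
    nlinarith

/-- all dimensions -/
theorem par (d : ℕ) (hd : 3 ≤ d) (N : ℕ) : ∃ k K : ℝ, 0 < k ∧ 3 ≤ K ∧ ∀ lam δ : ℝ, 0 < lam →
    K * lam ≤ δ → δ ≤ 1 / 8 → ∀ (L : ℕ) [NeZero L],
    1 ≤ scl d k (δ / lam) → (L : ℝ) ≤ 2 * scl d k (δ / lam) ^ (N + 2) →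
    scl d k (δ / lam) ≤ L →
    ∃ p R θ : ℝ, 1 < p ∧ 0 ≤ R ∧ 0 < θ ∧
      (∀ (u Gr : T d L → ℝ) (x0 : T d L), (∀ x, 1 / 2 ≤ u x) → (∀ x, 0 ≤ Gr x) →
      (∀ x, LapW u Gr x + (scl d k (δ / lam) ^ 2)⁻¹ * Real.exp (-(4 * δ)) * Gr x =
        if x = x0 then 1 else 0) →
      ∀ θ : ℝ, 0 < θ → ∑ z, min ((θ * Gr z) ^ 2) (θ * Gr z) ≤ R * θ ^ p) ∧
      (L : ℝ) ^ d * (2 * Real.exp (-(θ * δ) + R * (6 * lam * θ) ^ p / (p - 1))) ≤
        (scl d k (δ / lam) ^ N)⁻¹ := by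
  by_cases h3 : d = 3
  · subst h3
    exact par3 N
  · by_cases h4 : d = 4
    · subst h4
      exact par4 N
    · exact par5 d N (by omega)

/-- **the good event on the torus** -/
theorem torus_event (d : ℕ) (hd : 3 ≤ d) (N : ℕ) : ∃ k K : ℝ, 0 < k ∧ 3 ≤ K ∧
    ∀ (μ : Measure ℝ) [IsProbabilityMeasure μ], ∀ lam δ : ℝ, 0 < lam →
    K * lam ≤ δ → δ ≤ 1 / 8 → ∀ (L : ℕ) [NeZero L],
    1 ≤ scl d k (δ / lam) → (L : ℝ) ≤ 2 * scl d k (δ / lam) ^ (N + 2) →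
    scl d k (δ / lam) ≤ L →
    ∃ E : ℝ, |E| ≤ lam ∧ ∃ G : Set (T d L → ℝ), MeasurableSet G ∧
      (Measure.pi fun _ : T d L => μ).real Gᶜ ≤ (scl d k (δ / lam) ^ N)⁻¹ ∧
      ∀ V ∈ G, (∀ x, |V x| ≤ 1) → ∃ w : T d L → ℝ, (∀ x, |w x| ≤ δ) ∧
        MassEq lam E (scl d k (δ / lam) ^ 2)⁻¹ V w := by
  obtain ⟨k, K, hk, hK, H⟩ := par d hd N
  refine ⟨k, K, hk, hK, ?_⟩
  intro μ _ lam δ hlam hKl hδ L _ h1 h2 h3
  obtain ⟨p, R, θ, hp, hR, hθ, hG, hnum⟩ := H lam δ hlam hKl hδ L h1 h2 h3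
  have hδ0 : 0 < δ := by
    have : 0 < K * lam := by positivity
    linarith
  have hκ : 0 < (scl d k (δ / lam) ^ 2)⁻¹ := by
    have : 0 < scl d k (δ / lam) := by linarith
    positivity
  obtain ⟨E, hE, G, hGm, hP, hw⟩ := Goodt.good d L (scl d k (δ / lam) ^ 2)⁻¹ hκ p R hp
      hR μ lam δ hlam hδ0 hδ hG θ hθ
  refine ⟨E, hE, G, hGm, hP.trans hnum, ?_⟩
  intro V hV hV1
  obtain ⟨w, hw1, hw2⟩ := hw V hV hV1
  exact ⟨w, hw1, hw2⟩

end Pool.Agent.V8H99.AD
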