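import Pool.Agent.V8H99.AD.Stag
import Pool.Agent.V8H99.AD.Law
import Pool.Agent.V8H99.AD.Param

/-! Assembly. -/

set_option autoImplicit false
set_option linter.unusedSectionVars false

open scoped BigOperators ENNReal
open MeasureTheory

namespace Pool.Agent.V8H99.AD

open Pool.Agent.H4R2.AE

/-- the deterministic comparison on `ℤ^d` from the torus -/
theorem lower {d L : ℕ} [NeZero L] {lam E δ ε κ : ℝ} {ω : (Fin d → ℤ) → ℝ} {w : T d L → ℝ}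
    (hδ : 0 ≤ δ) (hδ' : δ ≤ 1 / 8) (hκ : 0 ≤ κ) (hε : 0 ≤ ε) (hκε : κ ≤ ε ^ 2)
    (hlam : |lam| ≤ 1) (hω : ∀ x, |ω x| ≤ 1)
    (hw : ∀ x, |w x| ≤ δ) (h : MassEq lam E κ (fun y : T d L => ω (rep y)) w)
    {H K0 : L2 d →L[ℂ] L2 d} (hH : IsAnderson lam ω H) (hK : IsAnderson 0 0 K0)
    (f : L2 d) (R N : ℕ) (hf : SuppIn f R) (hN : 2 * (R + N) < L) (hN1 : 1 ≤ N) (t : ℝ)
    (ht : 24 * ((4 * d + 1) * |t|) ≤ N) (hKf : ‖K0 f‖ ≤ ε ^ 2 * ‖f‖) :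
    ‖ev H t f - Complex.exp (-(Complex.I * t * E)) • ev K0 t f‖ ^ 2 ≤
      (168 * (δ * (δ + ε ^ 2 * |t|)) + 32 * Real.exp (-(2 * N : ℝ))) * ‖f‖ ^ 2 := by
  have hω' : ∀ x, |lam * ω x| ≤ 1 := fun x => by
    rw [abs_mul]
    have := hω x
    have h1 := abs_nonneg lam
    have h2 := abs_nonneg (ω x)
    nlinarith
  have hc : ‖Complex.exp (-(Complex.I * t * E))‖ = 1 := by
    rw [show -(Complex.I * (t : ℂ) * (E : ℂ)) = ((-(t * E) : ℝ) : ℂ) * Complex.I by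
      push_cast; ring]
    exact Complex.norm_exp_ofReal_mul_I _
  have h1 := transfer hH hω' hK (Complex.exp (-(Complex.I * t * E))) hc f R N hf hN t ht
  have hfn : ‖tau L f‖ = ‖f‖ := tau_norm_eq hf (by omega)
  have hψ : ‖H0 (tau L f)‖ ≤ ε ^ 2 * ‖tau L f‖ := by
    have e1 : tau L (K0 f) = H0 (tau L f) := tau_H hK hf (by omega)
    rw [← e1, hfn]
    exact (tau_norm_le _).trans hKf
  have h2 := torus_dyn hδ hδ' hκ hε hκε hw h (tau L f) hψ t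
  have h3 : ev (Aop lam E (fun y : T d L => ω (rep y))) t (tau L f) =
      Complex.exp (Complex.I * t * E) • ev (HC lam (fun y : T d L => ω (rep y))) t (tau L f) :=
    ev_shift _ E t (tau L f)
  rw [h3] at h2
  have h4 : ‖Complex.exp (Complex.I * t * E) • ev (HC lam (fun y : T d L => ω (rep y))) t (tau L f) -
      ev H0 t (tau L f)‖ = ‖ev (HC lam (fun y : T d L => ω (rep y))) t (tau L f) -
        Complex.exp (-(Complex.I * t * E)) • ev H0 t (tau L f)‖ := by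
    have e1 : Complex.exp (Complex.I * t * E) • ev (HC lam (fun y : T d L => ω (rep y))) t (tau L f) -
      ev H0 t (tau L f) = Complex.exp (Complex.I * t * E) •
        (ev (HC lam (fun y : T d L => ω (rep y))) t (tau L f) -
        Complex.exp (-(Complex.I * t * E)) • ev H0 t (tau L f)) := by
      rw [smul_sub, smul_smul, ← Complex.exp_add]
      simp
    have e2 : ‖Complex.exp (Complex.I * t * E)‖ = 1 := by
      rw [show (Complex.I * (t : ℂ) * (E : ℂ)) = (((t * E) : ℝ) : ℂ) * Complex.I by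
        push_cast; ring]
      exact Complex.norm_exp_ofReal_mul_I _
    rw [e1, norm_smul, e2, one_mul]
  rw [h4, hfn] at h2
  set a := ‖ev (HC lam (fun y : T d L => ω (rep y))) t (tau L f) -
        Complex.exp (-(Complex.I * t * E)) • ev H0 t (tau L f)‖ with ha
  have ha0 : 0 ≤ a := norm_nonneg _
  set b := Real.exp (-(N : ℝ)) * ‖f‖ with hb
  have hb0 : 0 ≤ b := by positivity
  have hb2 : b ^ 2 = Real.exp (-(2 * N : ℝ)) * ‖f‖ ^ 2 := by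
    rw [hb, mul_pow, ← Real.exp_nat_mul]
    congr 2
    push_cast
    ring
  calc ‖ev H t f - Complex.exp (-(Complex.I * t * E)) • ev K0 t f‖ ^ 2 ≤ (a + 4 * b) ^ 2 :=
        pow_le_pow_left₀ (norm_nonneg _) h1 2
    _ ≤ 2 * a ^ 2 + 32 * b ^ 2 := by nlinarith [sq_nonneg (a - 4 * b)]
    _ ≤ 2 * (84 * (δ * (δ + ε ^ 2 * |t|)) * ‖f‖ ^ 2) + 32 * b ^ 2 := by linarith
    _ = _ := by rw [hb2]; ring

/-- one band edge -/
theorem one_edge (d : ℕ) (hd : 3 ≤ d) (N : ℕ) : ∃ k K : ℝ, 0 < k ∧ 168 ≤ K ∧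
    ∀ (μ : Measure ℝ) [IsProbabilityMeasure μ], μ (Set.Icc (-1) 1)ᶜ = 0 →
    ∀ lam δ : ℝ, 0 < lam → K * lam ≤ δ → δ ≤ 1 / 8 →
    2 ≤ scl d k (δ / lam) ∧
    ∃ E : ℝ, |E| ≤ lam ∧ ∃ G : Set ((Fin d → ℤ) → ℝ), MeasurableSet G ∧
      (Measure.infinitePi fun _ : Fin d → ℤ => μ).real Gᶜ ≤ (scl d k (δ / lam) ^ (N + 1))⁻¹ ∧
      ∀ ω ∈ G, (∀ x, |ω x| ≤ 1) ∧ ∀ H K0 : L2 d →L[ℂ] L2 d, IsAnderson lam ω H →
        IsAnderson 0 0 K0 → ∀ ε : ℝ, 1 / scl d k (δ / lam) ≤ ε → ∀ f : L2 d,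
        (∀ x, f x ≠ 0 → ∀ i, (|x i| : ℝ) ≤ scl d k (δ / lam) ^ N) →
        ∀ t : ℝ, |t| ≤ scl d k (δ / lam) ^ N → ‖K0 f‖ ≤ ε ^ 2 * ‖f‖ →
        ‖ev H t f - Complex.exp (-(Complex.I * t * E)) • ev K0 t f‖ ^ 2 ≤
          (K * (δ * (δ + ε ^ 2 * |t|)) + Real.exp (-scl d k (δ / lam))) * ‖f‖ ^ 2 := by
  obtain ⟨k, K1, hk, hK1, HT⟩ := torus_event d hd (N + 1)
  set Cd : ℝ := 200 * (4 * d + 1) with hCd
  refine ⟨k, max (max K1 168) (Cd / k), hk, (le_max_right _ _).trans (le_max_left _ _), ?_⟩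
  intro μ _ hμ lam δ hlam hKl hδ
  set K := max (max K1 168) (Cd / k) with hK
  have hK168 : 168 ≤ K := (le_max_right _ _).trans (le_max_left _ _)
  have hKK1 : K1 ≤ K := (le_max_left _ _).trans (le_max_left _ _)
  have hKC : Cd / k ≤ K := le_max_right _ _
  have hδ0 : 0 < δ := by
    have : 0 < K * lam := by positivity
    linarith
  have hr : K ≤ δ / lam := by rw [le_div_iff₀ hlam]; exact hKl
  set ℓ := scl d k (δ / lam) with hℓ
  have hℓC : Cd ≤ ℓ := by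
    have h1 := scl_ge d hd k (δ / lam) hk (by linarith)
    have h2 : Cd ≤ k * (δ / lam) := by
      rw [div_le_iff₀ hk] at hKC
      nlinarith
    linarith
  have hd0 : (0 : ℝ) ≤ d := by positivity
  have hCd200 : 200 ≤ Cd := by rw [hCd]; nlinarith
  have hℓ200 : 200 ≤ ℓ := by linarith
  have hℓ1 : 1 ≤ ℓ := by linarith
  have hℓ0 : 0 < ℓ := by linarith
  refine ⟨by linarith, ?_⟩
  have hL1 : 0 < ⌈ℓ ^ (N + 3)⌉₊ := Nat.ceil_pos.2 (by positivity)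
  set L := ⌈ℓ ^ (N + 3)⌉₊ with hL
  have : NeZero L := ⟨hL1.ne'⟩
  have hLlo : ℓ ^ (N + 3) ≤ (L : ℝ) := Nat.le_ceil _
  have hp1 : ∀ n : ℕ, 1 ≤ ℓ ^ n := fun n => one_le_pow₀ hℓ1
  have hLup : (L : ℝ) ≤ 2 * ℓ ^ (N + 1 + 2) := by
    have h1 := Nat.ceil_lt_add_one (show 0 ≤ ℓ ^ (N + 3) by positivity)
    have h2 := hp1 (N + 3)
    rw [show N + 1 + 2 = N + 3 by ring]
    linarith
  have hℓL : ℓ ≤ L := by
    refine le_trans ?_ hLlo
    calc ℓ = ℓ ^ 1 := (pow_one ℓ).symm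
      _ ≤ _ := pow_le_pow_right₀ hℓ1 (by omega)
  obtain ⟨E, hE, G0, hG0, hP0, hw0⟩ := HT μ lam δ hlam ((mul_le_mul_of_nonneg_right hKK1 hlam.le).trans hKl)
    hδ L hℓ1 hLup hℓL
  obtain ⟨G, hG, hP, hGG⟩ := lift_event μ hμ G0 hG0 _ hP0
  refine ⟨E, hE, G, hG, hP, ?_⟩
  intro ω hω
  obtain ⟨h1, h2⟩ := hGG ω hω
  refine ⟨h2, ?_⟩
  intro H K0 hH hK0 ε hε f hf t ht hKf
  obtain ⟨w, hw1, hw2⟩ := hw0 _ h1 (fun y => h2 (rep y))
  have hlam1 : |lam| ≤ 1 := by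
    rw [abs_of_pos hlam]
    nlinarith
  have hε0 : 0 < ε := lt_of_lt_of_le (by positivity) hε
  have hκε : (ℓ ^ 2)⁻¹ ≤ ε ^ 2 := by
    calc (ℓ ^ 2)⁻¹ = (1 / ℓ) ^ 2 := by field_simp
      _ ≤ ε ^ 2 := by gcongr
  set R := ⌊ℓ ^ N⌋₊ with hR
  set M := ⌈24 * (4 * d + 1) * ℓ ^ N + ℓ + 10⌉₊ with hM
  have hMlo : 24 * (4 * d + 1) * ℓ ^ N + ℓ + 10 ≤ (M : ℝ) := Nat.le_ceil _
  have hMup : (M : ℝ) ≤ 24 * (4 * d + 1) * ℓ ^ N + ℓ + 11 := by
    have := Nat.ceil_lt_add_one (show 0 ≤ 24 * (4 * (d : ℝ) + 1) * ℓ ^ N + ℓ + 10 by positivity)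
    linarith
  have hRup : (R : ℝ) ≤ ℓ ^ N := Nat.floor_le (by positivity)
  have hfR : SuppIn f R := by
    intro x hx i
    have h3 := hf x hx i
    have h4 : ((x i).natAbs : ℝ) ≤ ℓ ^ N := by
      rw [Nat.cast_natAbs]
      push_cast
      exact h3
    have h5 : (x i).natAbs ≤ R := Nat.le_floor h4
    have h6 : |x i| = ((x i).natAbs : ℤ) := Int.abs_eq_natAbs _
    rw [h6]
    exact_mod_cast h5
  have hRM : 2 * (R + M) < L := by
    have hq : (2 * ((R : ℝ) + M)) < (L : ℝ) := by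
      refine lt_of_lt_of_le ?_ hLlo
      have hpN := hp1 N
      have hpN1 : ℓ ^ N ≤ ℓ ^ (N + 1) := pow_le_pow_right₀ hℓ1 (by omega)
      have hpN2 : ℓ ≤ ℓ ^ (N + 1) := by
        calc ℓ = ℓ ^ 1 := (pow_one ℓ).symm
          _ ≤ _ := pow_le_pow_right₀ hℓ1 (by omega)
      have hpow : ℓ ^ (N + 3) = ℓ ^ (N + 1) * ℓ * ℓ := by ring
      have hX : 1 ≤ ℓ ^ (N + 1) := hp1 (N + 1)
      have h7 : 2 * ((R : ℝ) + M) ≤ (100 * (4 * d + 1)) * ℓ ^ (N + 1) := by nlinarith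
      have h8 : (100 * (4 * d + 1)) * ℓ ^ (N + 1) < ℓ ^ (N + 3) := by
        rw [hpow]
        have h9 : (100 * (4 * (d : ℝ) + 1)) < ℓ := by
          rw [hCd] at hℓC
          nlinarith
        have h10 : ℓ ≤ ℓ * ℓ := by nlinarith
        have hX0 : 0 < ℓ ^ (N + 1) := by positivity
        nlinarith
      linarith
    exact_mod_cast hq
  have hM1 : 1 ≤ M := by
    have : (1 : ℝ) ≤ M := by
      have : 0 ≤ 24 * (4 * (d : ℝ) + 1) * ℓ ^ N := by positivity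
      linarith
    exact_mod_cast this
  have htM : 24 * ((4 * d + 1) * |t|) ≤ (M : ℝ) := by
    have h3 : (4 * (d : ℝ) + 1) * |t| ≤ (4 * (d : ℝ) + 1) * ℓ ^ N := by gcongr
    nlinarith
  have hmain := lower hδ0.le hδ (by positivity) hε0.le hκε hlam1 h2 hw1 hw2 hH hK0 f R M hfR hRM hM1
    t htM hKf
  refine hmain.trans (mul_le_mul_of_nonneg_right ?_ (by positivity))
  have e1 : 168 * (δ * (δ + ε ^ 2 * |t|)) ≤ K * (δ * (δ + ε ^ 2 * |t|)) := by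
    have : 0 ≤ δ * (δ + ε ^ 2 * |t|) := by positivity
    gcongr
  have e2 : 32 * Real.exp (-(2 * M : ℝ)) ≤ Real.exp (-ℓ) := by
    have h32 : (32 : ℝ) ≤ Real.exp 20 := by
      have := Real.add_one_le_exp (10 : ℝ)
      have h5 : Real.exp 20 = Real.exp 10 * Real.exp 10 := by rw [← Real.exp_add]; norm_num
      rw [h5]; nlinarith
    calc 32 * Real.exp (-(2 * M : ℝ)) ≤ Real.exp 20 * Real.exp (-(2 * M : ℝ)) := by gcongr
      _ = Real.exp (20 - 2 * M) := by rw [← Real.exp_add]; congr 1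
      _ ≤ Real.exp (-ℓ) := by
          apply Real.exp_le_exp.2
          have : 0 ≤ 24 * (4 * (d : ℝ) + 1) * ℓ ^ N := by positivity
          linarith
  linarith

/-- both band edges -/
theorem both_edges (d : ℕ) (hd : 3 ≤ d) (N : ℕ) : ∃ k K : ℝ, 0 < k ∧ 0 < K ∧
    ∀ (μ : Measure ℝ) [IsProbabilityMeasure μ], μ (Set.Icc (-1) 1)ᶜ = 0 →
    ∀ lam δ : ℝ, 0 < lam → K * lam ≤ δ → δ ≤ 1 / 8 →
    ∃ Em Ep : ℝ, |Em| ≤ lam ∧ |Ep| ≤ lam ∧ ∃ G : Set ((Fin d → ℤ) → ℝ), MeasurableSet G ∧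
      1 - (scl d k (δ / lam) ^ N)⁻¹ ≤ (Measure.infinitePi fun _ : Fin d → ℤ => μ).real G ∧
      ∀ ω ∈ G, ∀ H K0 : L2 d →L[ℂ] L2 d, IsAnderson lam ω H →
        IsAnderson 0 0 K0 → ∀ ε : ℝ, 1 / scl d k (δ / lam) ≤ ε → ∀ f : L2 d,
        (∀ x, f x ≠ 0 → ∀ i, (|x i| : ℝ) ≤ scl d k (δ / lam) ^ N) →
        ∀ t : ℝ, |t| ≤ scl d k (δ / lam) ^ N →
        (‖K0 f‖ ≤ ε ^ 2 * ‖f‖ →
          ‖ev H t f - Complex.exp (-(Complex.I * t * Em)) • ev K0 t f‖ ^ 2 ≤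
            (K * (δ * (δ + ε ^ 2 * |t|)) + Real.exp (-scl d k (δ / lam))) * ‖f‖ ^ 2) ∧
        (‖(4 * d : ℂ) • f - K0 f‖ ≤ ε ^ 2 * ‖f‖ →
          ‖ev H t f - Complex.exp (-(Complex.I * t * Ep)) • ev K0 t f‖ ^ 2 ≤
            (K * (δ * (δ + ε ^ 2 * |t|)) + Real.exp (-scl d k (δ / lam))) * ‖f‖ ^ 2) := by
  obtain ⟨k, K, hk, hK, H1⟩ := one_edge d hd N
  refine ⟨k, K, hk, by linarith, ?_⟩
  intro μ _ hμ lam δ hlam hKl hδ
  set μ' : Measure ℝ := μ.map (fun s => -s) with hμ'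
  have : IsProbabilityMeasure μ' := Measure.isProbabilityMeasure_map measurable_neg.aemeasurable
  have hμ'0 : μ' (Set.Icc (-1) 1)ᶜ = 0 := by
    rw [hμ', Measure.map_apply measurable_neg measurableSet_Icc.compl]
    have : (fun s : ℝ => -s) ⁻¹' (Set.Icc (-1) 1)ᶜ = (Set.Icc (-1) 1)ᶜ := by
      ext s
      simp only [Set.mem_preimage, Set.mem_compl_iff, Set.mem_Icc]
      constructor
      · rintro h ⟨h1, h2⟩; exact h ⟨by linarith, by linarith⟩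
      · rintro h ⟨h1, h2⟩; exact h ⟨by linarith, by linarith⟩
    rw [this]; exact hμ
  obtain ⟨hℓ, E1, hE1, G1, hG1, hP1, hw1⟩ := H1 μ hμ lam δ hlam hKl hδ
  obtain ⟨-, E2, hE2, G2, hG2, hP2, hw2⟩ := H1 μ' hμ'0 lam δ hlam hKl hδ
  set ℓ := scl d k (δ / lam) with hℓd
  have hneg : Measurable (fun (ω : (Fin d → ℤ) → ℝ) x => -ω x) :=
    measurable_pi_lambda _ fun x => (measurable_pi_apply x).neg
  have hlaw : (Measure.infinitePi fun _ : Fin d → ℤ => μ).map (fun ω x => -ω x) =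
      Measure.infinitePi fun _ : Fin d → ℤ => μ' :=
    Measure.infinitePi_map_pi (μ := fun _ : Fin d → ℤ => μ)
      (f := fun _ (s : ℝ) => -s) (fun _ => measurable_neg)
  set F : ((Fin d → ℤ) → ℝ) → (Fin d → ℤ) → ℝ := fun ω x => -ω x with hF
  set P := Measure.infinitePi fun _ : Fin d → ℤ => μ with hP
  have hP2' : P.real (F ⁻¹' G2)ᶜ ≤ (ℓ ^ (N + 1))⁻¹ := by
    rw [← Set.preimage_compl]
    rw [← hlaw] at hP2
    rw [measureReal_def, Measure.map_apply hneg hG2.compl] at hP2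
    exact hP2
  refine ⟨E1, -E2, hE1, by rw [abs_neg]; exact hE2, G1 ∩ F ⁻¹' G2, hG1.inter (hneg hG2), ?_, ?_⟩
  · have h1 : P.real (G1 ∩ F ⁻¹' G2)ᶜ ≤ (ℓ ^ N)⁻¹ := by
      rw [Set.compl_inter]
      calc P.real (G1ᶜ ∪ (F ⁻¹' G2)ᶜ) ≤ P.real G1ᶜ + P.real (F ⁻¹' G2)ᶜ := measureReal_union_le _ _
        _ ≤ (ℓ ^ (N + 1))⁻¹ + (ℓ ^ (N + 1))⁻¹ := add_le_add hP1 hP2'
        _ = (2 / ℓ) * (ℓ ^ N)⁻¹ := by rw [pow_succ]; field_simp; ring
        _ ≤ 1 * (ℓ ^ N)⁻¹ := by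
            gcongr
            rw [div_le_one (by linarith)]
            exact hℓ
        _ = _ := one_mul _
    have h3 := probReal_add_probReal_compl (μ := P) (hG1.inter (hneg hG2))
    linarith
  · intro ω hω H K0 hH hK0 ε hε f hf t ht
    refine ⟨fun hKf => (hw1 ω hω.1).2 H K0 hH hK0 ε hε f hf t ht hKf, fun hKf => ?_⟩
    obtain ⟨hb, hm⟩ := hw2 (fun x => -ω x) hω.2
    obtain ⟨H', hH'⟩ := Exist.exists_anderson d lam (fun x => -ω x) 1 zero_le_one hb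
    obtain ⟨g, hg1, hg2, hg3, hg4⟩ := upper hH hH' hK0 E2 t f
    rw [hg4, ← hg1]
    have h5 := hm H' K0 hH' hK0 ε hε g (fun x hx => hf x (fun h0 => hx ((hg2 x).2 h0))) (-t)
      (by rw [abs_neg]; exact ht) (by rw [hg3, hg1]; exact hKf)
    rw [abs_neg] at h5
    exact h5

end Pool.Agent.V8H99.AD
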