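import Pool.Agent.H4R2.AE.Core2

/-! Bounds for the massive Green functions on the torus, arbitrary mass. -/

set_option autoImplicit false
set_option linter.unusedSectionVars false

open scoped BigOperators
open MeasureTheory

namespace Pool.Agent.V8H99.AD

open Pool.Agent.H4R2.AE

theorem green5 (d : ℕ) (hd : 5 ≤ d) : ∃ R : ℝ, 0 ≤ R ∧ ∀ (L : ℕ) [NeZero L] (k : ℝ),
    1 / (8 * (L : ℝ) ^ 2) ≤ k →
    ∀ (u Gr : T d L → ℝ) (x0 : T d L), (∀ x, 1 / 2 ≤ u x) → (∀ x, 0 ≤ Gr x) →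
      (∀ x, LapW u Gr x + k * Gr x = if x = x0 then 1 else 0) →
      ∀ θ : ℝ, 0 < θ → ∑ z, min ((θ * Gr z) ^ 2) (θ * Gr z) ≤ R * θ ^ Arith2.pe d := by
  obtain ⟨A, hA, HA⟩ := Weak.weak d (by omega)
  obtain ⟨C, hC, HC⟩ := Layer.layer_lt_two (Arith2.pe d) (Arith2.pe_gt_one d (by omega))
    (Arith2.pe_lt_two d hd)
  refine ⟨C * A, by positivity, ?_⟩
  intro L _ k hk u Gr x0 hu hGr hh θ hθ
  have h1 := HA L u (fun _ => k) Gr x0 hu (fun _ => hk) hGr hh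
  refine (HC (T d L) (fun z => θ * Gr z) (A * θ ^ Arith2.pe d)
    (fun x => mul_nonneg hθ.le (hGr x)) (by positivity)
    (fun t ht => Core2.weak_mul A Gr _ h1 θ hθ t ht)).trans (le_of_eq (by ring))

theorem green4 : ∃ A : ℝ, 0 < A ∧ ∀ (L : ℕ) [NeZero L] (k : ℝ), 1 / (8 * (L : ℝ) ^ 2) ≤ k →
    ∀ (u Gr : T 4 L → ℝ) (x0 : T 4 L), (∀ x, 1 / 2 ≤ u x) → (∀ x, 0 ≤ Gr x) →
      (∀ x, LapW u Gr x + k * Gr x = if x = x0 then 1 else 0) →
      ∀ θ : ℝ, 0 < θ → ∑ z, min ((θ * Gr z) ^ 2) (θ * Gr z) ≤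
        (A * (1 + 4 * Real.log (L : ℝ))) * θ ^ (2 : ℝ) := by
  obtain ⟨A, hA, HA⟩ := Weak.weak 4 (by norm_num)
  refine ⟨A, by linarith, ?_⟩
  intro L _ k hk u Gr x0 hu hGr hh θ hθ
  have h1 := HA L u (fun _ => k) Gr x0 hu (fun _ => hk) hGr hh
  have hp : ((4 : ℕ) : ℝ) / (((4 : ℕ) : ℝ) - 2) = 2 := by norm_num
  rw [hp] at h1
  have h2 := Core2.weak_mul A Gr 2 h1 θ hθ
  simp only [Real.rpow_two] at h2
  have h3 := Layer.layer_two (T 4 L) (fun z => θ * Gr z) (A * θ ^ 2)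
    (fun x => mul_nonneg hθ.le (hGr x)) (by positivity) h2
  rw [Core2.log_card] at h3
  calc ∑ z, min ((θ * Gr z) ^ 2) (θ * Gr z) ≤ ∑ z, (θ * Gr z) ^ 2 :=
        Finset.sum_le_sum fun z _ => min_le_left _ _
    _ ≤ _ := h3
    _ = _ := by rw [Real.rpow_two]; ring

/-- the sum of squares from the weak bound with `p = 3` and the total mass -/
theorem sq_sum {ι : Type} [Fintype ι] [DecidableEq ι] (a : ι → ℝ) (A k : ℝ) (ha : ∀ x, 0 ≤ a x)
    (hA : 0 < A) (hk : 0 < k)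
    (h : ∀ t : ℝ, 0 < t → ((Finset.univ.filter fun x => t ≤ a x).card : ℝ) * t ^ (3 : ℝ) ≤ A)
    (hs : ∑ x, a x ≤ 1 / k) : ∑ x, a x ^ 2 ≤ 4 * √A / √k := by
  have hsA := Real.sqrt_pos.2 hA
  have hsk := Real.sqrt_pos.2 hk
  have hA2 := Real.sq_sqrt hA.le
  have hk2 := Real.sq_sqrt hk.le
  set t0 : ℝ := √A * √k with ht0
  have ht0p : 0 < t0 := by positivity
  set S := Finset.univ.filter fun x => t0 ≤ a x with hS
  have hcard := h t0 ht0p
  have e3 : t0 ^ (3 : ℝ) = t0 ^ 3 := by norm_cast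
  rw [e3] at hcard
  have hsum := Layer.layer_sort a 3 A (by norm_num) ha hA.le h (fun t => t ^ 2)
    (by
      intro x hx y hy hxy
      exact pow_le_pow_left₀ hx hxy 2) S.card S rfl
  have hb : ∀ j : ℕ, ((A / ((j : ℝ) + 1)) ^ (1 / (3 : ℝ))) ^ 2 =
      A ^ (2 / 3 : ℝ) * ((j : ℝ) + 1) ^ (-(2 / 3) : ℝ) := by
    intro j
    have hj : (0 : ℝ) < (j : ℝ) + 1 := by positivity
    rw [← Real.rpow_natCast, ← Real.rpow_mul (by positivity), Real.div_rpow hA.le hj.le,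
      Real.rpow_neg hj.le]
    norm_num
    rw [div_eq_mul_inv]
  simp only [hb] at hsum
  rw [← Finset.mul_sum] at hsum
  have hl1 := Layer.layer_l1 (2 / 3) (by norm_num) (by norm_num) S.card
  have h13 : (1 : ℝ) - 2 / 3 = 1 / 3 := by norm_num
  rw [h13] at hl1
  have hc0 : (0 : ℝ) ≤ S.card := by positivity
  have hcle : (S.card : ℝ) ≤ A / t0 ^ 3 := by rw [le_div_iff₀ (by positivity)]; exact hcard
  have hcle2 : (S.card : ℝ) ^ (1 / 3 : ℝ) ≤ A ^ (1 / 3 : ℝ) / t0 := by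
    calc (S.card : ℝ) ^ (1 / 3 : ℝ) ≤ (A / t0 ^ 3) ^ (1 / 3 : ℝ) :=
          Real.rpow_le_rpow hc0 hcle (by norm_num)
      _ = A ^ (1 / 3 : ℝ) / t0 := by
          rw [Real.div_rpow hA.le (by positivity), ← Real.rpow_natCast t0 3,
            ← Real.rpow_mul ht0p.le]
          norm_num
  have hfirst : ∑ x ∈ S, a x ^ 2 ≤ 3 * A / t0 := by
    calc ∑ x ∈ S, a x ^ 2 ≤ A ^ (2 / 3 : ℝ) * ∑ j ∈ Finset.range S.card, ((j : ℝ) + 1) ^ (-(2 / 3) : ℝ) :=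
          hsum
      _ ≤ A ^ (2 / 3 : ℝ) * ((S.card : ℝ) ^ (1 / 3 : ℝ) / (1 / 3)) := by gcongr
      _ ≤ A ^ (2 / 3 : ℝ) * ((A ^ (1 / 3 : ℝ) / t0) / (1 / 3)) := by gcongr
      _ = 3 * (A ^ (2 / 3 : ℝ) * A ^ (1 / 3 : ℝ)) / t0 := by ring
      _ = 3 * A / t0 := by
          rw [← Real.rpow_add hA]
          norm_num
  have hsecond : ∑ x ∈ Sᶜ, a x ^ 2 ≤ t0 / k := by
    calc ∑ x ∈ Sᶜ, a x ^ 2 ≤ ∑ x ∈ Sᶜ, t0 * a x := by
          refine Finset.sum_le_sum fun x hx => ?_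
          rw [hS, Finset.mem_compl, Finset.mem_filter] at hx
          push Not at hx
          have h1 := hx (Finset.mem_univ _)
          rw [pow_two]
          exact mul_le_mul_of_nonneg_right h1.le (ha x)
      _ = t0 * ∑ x ∈ Sᶜ, a x := by rw [Finset.mul_sum]
      _ ≤ t0 * ∑ x, a x := by
          gcongr
          · exact fun x _ _ => ha x
          · exact Finset.subset_univ _
      _ ≤ t0 * (1 / k) := by gcongr
      _ = _ := by ring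
  rw [← Finset.sum_add_sum_compl S]
  have f1 : 3 * A / t0 = 3 * √A / √k := by
    rw [ht0]
    have : A = √A * √A := by rw [← pow_two, hA2]
    nth_rewrite 1 [this]
    field_simp
  have f2 : t0 / k = √A / √k := by
    rw [ht0]
    have : k = √k * √k := by rw [← pow_two, hk2]
    nth_rewrite 2 [this]
    field_simp
  rw [f1] at hfirst
  rw [f2] at hsecond
  calc _ ≤ 3 * √A / √k + √A / √k := add_le_add hfirst hsecond
    _ = _ := by ring

theorem green3 : ∃ R : ℝ, 0 < R ∧ ∀ (L : ℕ) [NeZero L] (k : ℝ), 1 / (8 * (L : ℝ) ^ 2) ≤ k →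
    ∀ (u Gr : T 3 L → ℝ) (x0 : T 3 L), (∀ x, 1 / 2 ≤ u x) → (∀ x, 0 ≤ Gr x) →
      (∀ x, LapW u Gr x + k * Gr x = if x = x0 then 1 else 0) →
      ∀ θ : ℝ, 0 < θ → ∑ z, min ((θ * Gr z) ^ 2) (θ * Gr z) ≤ (R / √k) * θ ^ (2 : ℝ) := by
  obtain ⟨A, hA, HA⟩ := Weak.weak 3 (by norm_num)
  have hA0 : 0 < A := by linarith
  refine ⟨4 * √A, by positivity, ?_⟩
  intro L _ k hk u Gr x0 hu hGr hh θ hθ
  have hL : (0 : ℝ) < (L : ℝ) := by exact_mod_cast NeZero.pos L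
  have hk0 : 0 < k := lt_of_lt_of_le (by positivity) hk
  have h1 := HA L u (fun _ => k) Gr x0 hu (fun _ => hk) hGr hh
  have hp : ((3 : ℕ) : ℝ) / (((3 : ℕ) : ℝ) - 2) = 3 := by norm_num
  rw [hp] at h1
  have hsum : ∑ x, Gr x = 1 / k := by
    have e1 : ∑ x, (LapW u Gr x + k * Gr x) = 1 := by
      simp only [hh]
      simp
    rw [Finset.sum_add_distrib, Lin.sum_lapW, zero_add, ← Finset.mul_sum] at e1
    rw [eq_div_iff hk0.ne', mul_comm]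
    exact e1
  have h2 := sq_sum Gr A k hGr hA0 hk0 h1 hsum.le
  calc ∑ z, min ((θ * Gr z) ^ 2) (θ * Gr z) ≤ ∑ z, (θ * Gr z) ^ 2 :=
        Finset.sum_le_sum fun z _ => min_le_left _ _
    _ = θ ^ 2 * ∑ z, Gr z ^ 2 := by
        rw [Finset.mul_sum]
        exact Finset.sum_congr rfl fun z _ => by ring
    _ ≤ θ ^ 2 * (4 * √A / √k) := by gcongr
    _ = _ := by rw [Real.rpow_two]; ring

end Pool.Agent.V8H99.AD
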