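import Pool.Agent.H4R2.AE.Defs

/-! The pairing identity behind the comparison of the two evolutions (finite sums on the torus). -/

set_option autoImplicit false

open scoped BigOperators ComplexConjugate
open MeasureTheory

namespace Pool.Agent.V8H99.AD

open Pool.Agent.H4R2.AE

variable {d L : ℕ} [NeZero L]

theorem shift_back {M : Type*} [AddCommMonoid M] (i : Fin d) (F : T d L → T d L → M) :
    ∑ x : T d L, F x (x - Pi.single i 1) = ∑ x : T d L, F (x + Pi.single i 1) x := by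
  refine (Equiv.sum_comp (Equiv.addRight (Pi.single i (1 : ZMod L) : T d L))
    (fun x => F x (x - Pi.single i 1))).symm.trans ?_
  refine Finset.sum_congr rfl fun x _ => ?_
  simp

/-- the free Laplacian `-Δ` on functions -/
noncomputable def Bf (g : T d L → ℂ) (x : T d L) : ℂ :=
  ∑ i : Fin d, (2 * g x - g (x + Pi.single i 1) - g (x - Pi.single i 1))

/-- the commutator term -/
noncomputable def Rf (u : T d L → ℝ) (g : T d L → ℂ) (x : T d L) : ℂ :=
  ∑ i : Fin d, (((u (x + Pi.single i 1) - u x : ℝ) : ℂ) * (g x - g (x + Pi.single i 1)) +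
    ((u (x - Pi.single i 1) - u x : ℝ) : ℂ) * (g x - g (x - Pi.single i 1)))

/-- the sum over neighbours -/
theorem sum_nbr {M : Type*} [AddCommMonoid M] (F : T d L → T d L → M) :
    ∑ x : T d L, ∑ i : Fin d, (F x (x + Pi.single i 1) + F x (x - Pi.single i 1)) =
      ∑ i : Fin d, ∑ x : T d L, (F x (x + Pi.single i 1) + F (x + Pi.single i 1) x) := by
  rw [Finset.sum_comm]
  refine Finset.sum_congr rfl fun i _ => ?_
  rw [Finset.sum_add_distrib, Finset.sum_add_distrib, shift_back i F]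

theorem pairing (u : T d L → ℝ) (q g : T d L → ℂ) :
    ∑ x, conj ((u x : ℂ) * q x) * Rf u g x =
      -(∑ x, ((u x ^ 2 - 1 : ℝ) : ℂ) * conj (q x) * Bf g x) +
      (1 / 2 : ℂ) * (∑ x, ∑ i : Fin d, ((((u x ^ 2 - 1 : ℝ) : ℂ) *
          (conj (q x - q (x + Pi.single i 1)) * (g x - g (x + Pi.single i 1)))) +
        ((u x ^ 2 - 1 : ℝ) : ℂ) *
          (conj (q x - q (x - Pi.single i 1)) * (g x - g (x - Pi.single i 1))))) -
      (1 / 2 : ℂ) * ∑ i : Fin d, ∑ x, (((u x - u (x + Pi.single i 1)) ^ 2 : ℝ) : ℂ) *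
          (conj (q x - q (x + Pi.single i 1)) * (g x - g (x + Pi.single i 1))) := by
  have h1 : ∑ x, conj ((u x : ℂ) * q x) * Rf u g x =
      ∑ x : T d L, ∑ i : Fin d, ((fun x y : T d L => conj ((u x : ℂ) * q x) *
        (((u y - u x : ℝ) : ℂ) * (g x - g y))) x (x + Pi.single i 1) +
        (fun x y : T d L => conj ((u x : ℂ) * q x) *
        (((u y - u x : ℝ) : ℂ) * (g x - g y))) x (x - Pi.single i 1)) := by
    refine Finset.sum_congr rfl fun x _ => ?_
    unfold Rf
    rw [Finset.mul_sum]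
    refine Finset.sum_congr rfl fun i _ => ?_
    ring
  have h2 : ∑ x, ((u x ^ 2 - 1 : ℝ) : ℂ) * conj (q x) * Bf g x =
      ∑ x : T d L, ∑ i : Fin d, ((fun x y : T d L => ((u x ^ 2 - 1 : ℝ) : ℂ) * conj (q x) *
        (g x - g y)) x (x + Pi.single i 1) +
        (fun x y : T d L => ((u x ^ 2 - 1 : ℝ) : ℂ) * conj (q x) *
        (g x - g y)) x (x - Pi.single i 1)) := by
    refine Finset.sum_congr rfl fun x _ => ?_
    unfold Bf
    rw [Finset.mul_sum]
    refine Finset.sum_congr rfl fun i _ => ?_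
    ring
  have h3 : ∑ x, ∑ i : Fin d, ((((u x ^ 2 - 1 : ℝ) : ℂ) *
          (conj (q x - q (x + Pi.single i 1)) * (g x - g (x + Pi.single i 1)))) +
        ((u x ^ 2 - 1 : ℝ) : ℂ) *
          (conj (q x - q (x - Pi.single i 1)) * (g x - g (x - Pi.single i 1)))) =
      ∑ x : T d L, ∑ i : Fin d, ((fun x y : T d L => ((u x ^ 2 - 1 : ℝ) : ℂ) *
        (conj (q x - q y) * (g x - g y))) x (x + Pi.single i 1) +
        (fun x y : T d L => ((u x ^ 2 - 1 : ℝ) : ℂ) *
        (conj (q x - q y) * (g x - g y))) x (x - Pi.single i 1)) := rfl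
  rw [h1, h2, h3,
    sum_nbr (fun x y : T d L => conj ((u x : ℂ) * q x) * (((u y - u x : ℝ) : ℂ) * (g x - g y))),
    sum_nbr (fun x y : T d L => ((u x ^ 2 - 1 : ℝ) : ℂ) * conj (q x) * (g x - g y)),
    sum_nbr (fun x y : T d L => ((u x ^ 2 - 1 : ℝ) : ℂ) * (conj (q x - q y) * (g x - g y)))]
  rw [Finset.mul_sum, Finset.mul_sum, ← Finset.sum_neg_distrib, ← Finset.sum_add_distrib,
    ← Finset.sum_sub_distrib]
  refine Finset.sum_congr rfl fun i _ => ?_
  rw [Finset.mul_sum, Finset.mul_sum, ← Finset.sum_neg_distrib, ← Finset.sum_add_distrib,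
    ← Finset.sum_sub_distrib]
  refine Finset.sum_congr rfl fun x _ => ?_
  simp only [map_mul, map_sub, Complex.conj_ofReal]
  push_cast
  ring

/-- squared `ℓ²` norm -/
noncomputable def nsq (f : T d L → ℂ) : ℝ := ∑ x, ‖f x‖ ^ 2

/-- the Dirichlet form -/
noncomputable def Dir (f : T d L → ℂ) : ℝ :=
  ∑ i : Fin d, ∑ x, ‖f x - f (x + Pi.single i 1)‖ ^ 2

theorem nsq_nonneg (f : T d L → ℂ) : 0 ≤ nsq f := Finset.sum_nonneg fun _ _ => by positivity

theorem Dir_nonneg (f : T d L → ℂ) : 0 ≤ Dir f :=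
  Finset.sum_nonneg fun _ _ => Finset.sum_nonneg fun _ _ => by positivity

theorem cs_nsq (f g : T d L → ℂ) : ∑ x, ‖f x‖ * ‖g x‖ ≤ √(nsq f) * √(nsq g) :=
  Real.sum_mul_le_sqrt_mul_sqrt _ _ _

theorem cs_dir (q g : T d L → ℂ) :
    ∑ i : Fin d, ∑ x, ‖q x - q (x + Pi.single i 1)‖ * ‖g x - g (x + Pi.single i 1)‖ ≤
      √(Dir q) * √(Dir g) := by
  unfold Dir
  calc ∑ i : Fin d, ∑ x, ‖q x - q (x + Pi.single i 1)‖ * ‖g x - g (x + Pi.single i 1)‖
      ≤ ∑ i : Fin d, √(∑ x, ‖q x - q (x + Pi.single i 1)‖ ^ 2) *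
          √(∑ x, ‖g x - g (x + Pi.single i 1)‖ ^ 2) :=
        Finset.sum_le_sum fun i _ => Real.sum_mul_le_sqrt_mul_sqrt _ _ _
    _ ≤ _ := by
        have h := Real.sum_mul_le_sqrt_mul_sqrt (Finset.univ : Finset (Fin d))
          (fun i => √(∑ x : T d L, ‖q x - q (x + Pi.single i 1)‖ ^ 2))
          (fun i => √(∑ x : T d L, ‖g x - g (x + Pi.single i 1)‖ ^ 2))
        simpa only [Real.sq_sqrt (Finset.sum_nonneg fun _ _ => sq_nonneg _)] using h

/-- the pairing estimate -/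
theorem pairing_le (u : T d L → ℝ) (q g : T d L → ℂ) (a b : ℝ) (ha : 0 ≤ a)
    (hU : ∀ x, |u x ^ 2 - 1| ≤ a) (hV : ∀ x y, (u x - u y) ^ 2 ≤ b) :
    ‖∑ x, conj ((u x : ℂ) * q x) * Rf u g x‖ ≤
      a * (√(nsq q) * √(nsq (Bf g))) + (a + b / 2) * (√(Dir q) * √(Dir g)) := by
  have hb : 0 ≤ b := (sq_nonneg _).trans (hV 0 0)
  rw [pairing]
  have e1 : ‖∑ x, ((u x ^ 2 - 1 : ℝ) : ℂ) * conj (q x) * Bf g x‖ ≤
      a * (√(nsq q) * √(nsq (Bf g))) := by
    refine (norm_sum_le _ _).trans ?_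
    calc ∑ x, ‖((u x ^ 2 - 1 : ℝ) : ℂ) * conj (q x) * Bf g x‖
        ≤ ∑ x, a * (‖q x‖ * ‖Bf g x‖) := by
          refine Finset.sum_le_sum fun x _ => ?_
          rw [norm_mul, norm_mul, Complex.norm_real, RCLike.norm_conj, Real.norm_eq_abs, mul_assoc]
          exact mul_le_mul_of_nonneg_right (hU x) (by positivity)
      _ = a * ∑ x, ‖q x‖ * ‖Bf g x‖ := by rw [Finset.mul_sum]
      _ ≤ _ := mul_le_mul_of_nonneg_left (cs_nsq q (Bf g)) ha
  have e2 : ‖∑ x, ∑ i : Fin d, ((((u x ^ 2 - 1 : ℝ) : ℂ) *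
          (conj (q x - q (x + Pi.single i 1)) * (g x - g (x + Pi.single i 1)))) +
        ((u x ^ 2 - 1 : ℝ) : ℂ) *
          (conj (q x - q (x - Pi.single i 1)) * (g x - g (x - Pi.single i 1))))‖ ≤
      2 * (a * (√(Dir q) * √(Dir g))) := by
    refine (norm_sum_le _ _).trans ?_
    calc _ ≤ ∑ x : T d L, ∑ i : Fin d, ((fun x y : T d L => a * (‖q x - q y‖ * ‖g x - g y‖))
            x (x + Pi.single i 1) +
          (fun x y : T d L => a * (‖q x - q y‖ * ‖g x - g y‖)) x (x - Pi.single i 1)) := by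
          refine Finset.sum_le_sum fun x _ => (norm_sum_le _ _).trans ?_
          refine Finset.sum_le_sum fun i _ => (norm_add_le _ _).trans ?_
          refine add_le_add ?_ ?_ <;>
          · rw [norm_mul, norm_mul, Complex.norm_real, RCLike.norm_conj, Real.norm_eq_abs]
            exact mul_le_mul_of_nonneg_right (hU x) (by positivity)
      _ = ∑ i : Fin d, ∑ x : T d L, 2 * (a * (‖q x - q (x + Pi.single i 1)‖ *
            ‖g x - g (x + Pi.single i 1)‖)) := by
          rw [sum_nbr (fun x y : T d L => a * (‖q x - q y‖ * ‖g x - g y‖))]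
          refine Finset.sum_congr rfl fun i _ => Finset.sum_congr rfl fun x _ => ?_
          rw [norm_sub_rev (q (x + Pi.single i 1)) (q x), norm_sub_rev (g (x + Pi.single i 1)) (g x)]
          ring
      _ = 2 * (a * ∑ i : Fin d, ∑ x : T d L, ‖q x - q (x + Pi.single i 1)‖ *
            ‖g x - g (x + Pi.single i 1)‖) := by
          simp only [Finset.mul_sum]
      _ ≤ _ := by
          gcongr
          exact cs_dir q g
  have e3 : ‖∑ i : Fin d, ∑ x, (((u x - u (x + Pi.single i 1)) ^ 2 : ℝ) : ℂ) *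
          (conj (q x - q (x + Pi.single i 1)) * (g x - g (x + Pi.single i 1)))‖ ≤
      b * (√(Dir q) * √(Dir g)) := by
    refine (norm_sum_le _ _).trans ?_
    calc _ ≤ ∑ i : Fin d, ∑ x : T d L, b * (‖q x - q (x + Pi.single i 1)‖ *
            ‖g x - g (x + Pi.single i 1)‖) := by
          refine Finset.sum_le_sum fun i _ => (norm_sum_le _ _).trans ?_
          refine Finset.sum_le_sum fun x _ => ?_
          rw [norm_mul, norm_mul, Complex.norm_real, RCLike.norm_conj, Real.norm_eq_abs,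
            abs_of_nonneg (sq_nonneg _)]
          exact mul_le_mul_of_nonneg_right (hV x _) (by positivity)
      _ = b * ∑ i : Fin d, ∑ x : T d L, ‖q x - q (x + Pi.single i 1)‖ *
            ‖g x - g (x + Pi.single i 1)‖ := by
          simp only [Finset.mul_sum]
      _ ≤ _ := by
          gcongr
          exact cs_dir q g
  have hh : ‖(1 / 2 : ℂ)‖ = 1 / 2 := by norm_num
  refine (norm_sub_le _ _).trans ?_
  refine (add_le_add_left (norm_add_le _ _) _).trans ?_
  rw [norm_neg, norm_mul, norm_mul, hh]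
  calc _ ≤ a * (√(nsq q) * √(nsq (Bf g))) + 1 / 2 * (2 * (a * (√(Dir q) * √(Dir g)))) +
        1 / 2 * (b * (√(Dir q) * √(Dir g))) := by gcongr
    _ = _ := by ring

end Pool.Agent.V8H99.AD
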