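import Pool.Agent.V8H99.AD.Dyn

/-! The staggering transformation: the upper band edge. -/

set_option autoImplicit false
set_option linter.unusedSectionVars false

open scoped BigOperators ENNReal
open MeasureTheory

namespace Pool.Agent.V8H99.AD

open Pool.Agent.H4R2.AE

variable {d : ℕ}

/-- the sign `(-1)^(x_1 + ... + x_d)` -/
noncomputable def sgn (x : Fin d → ℤ) : ℝ := if Even (∑ i, x i) then 1 else -1

theorem sgn_sq (x : Fin d → ℤ) : sgn x * sgn x = 1 := by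
  unfold sgn; split_ifs <;> norm_num

theorem sgn_abs (x : Fin d → ℤ) : |sgn x| = 1 := by
  unfold sgn; split_ifs <;> norm_num

theorem sgn_add (x : Fin d → ℤ) (i : Fin d) : sgn (x + Pi.single i 1) = -sgn x := by
  unfold sgn
  have h : ∑ j, (x + Pi.single i 1 : Fin d → ℤ) j = ∑ j, x j + 1 := by
    simp only [Pi.add_apply, Finset.sum_add_distrib]
    simp
  rw [h]
  by_cases hx : Even (∑ j, x j)
  · rw [if_pos hx, if_neg (by rw [Int.even_add_one]; simpa using hx)]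
  · rw [if_neg hx, if_pos (by rw [Int.even_add_one]; exact hx)]
    norm_num

theorem sgn_sub (x : Fin d → ℤ) (i : Fin d) : sgn (x - Pi.single i 1) = -sgn x := by
  have := sgn_add (x - Pi.single i 1) i
  rw [sub_add_cancel] at this
  linarith

theorem exists_stag (d : ℕ) : ∃ U : L2 d →L[ℂ] L2 d, ∀ f x, (U f) x = (sgn x : ℂ) * f x := by
  obtain ⟨A, hA⟩ := Exist.exists_op (ι := Fin d → ℤ) id Function.injective_id
    (fun x => ((sgn x : ℝ) : ℂ)) 1 zero_le_one (fun x => by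
      rw [Complex.norm_real, Real.norm_eq_abs, sgn_abs])
  exact ⟨A, fun f x => hA f x⟩

section
variable {U : L2 d →L[ℂ] L2 d} (hU : ∀ f x, (U f) x = (sgn x : ℂ) * f x)

include hU

theorem U_norm (f : L2 d) : ‖U f‖ = ‖f‖ := by
  have h : ‖U f‖ ^ 2 = ‖f‖ ^ 2 := by
    rw [l2_norm_sq, l2_norm_sq]
    refine tsum_congr fun x => ?_
    rw [hU, norm_mul, Complex.norm_real, Real.norm_eq_abs, sgn_abs, one_mul]
  have h1 := congrArg Real.sqrt h
  rwa [Real.sqrt_sq (norm_nonneg _), Real.sqrt_sq (norm_nonneg _)] at h1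

theorem U_U (f : L2 d) : U (U f) = f := by
  ext x
  rw [hU, hU, ← mul_assoc, ← Complex.ofReal_mul, sgn_sq]
  simp

theorem U_H {lam : ℝ} {ω : (Fin d → ℤ) → ℝ} {H H' : L2 d →L[ℂ] L2 d} (hH : IsAnderson lam ω H)
    (hH' : IsAnderson lam (fun x => -ω x) H') (f : L2 d) :
    U (H f) = (4 * d : ℂ) • U f - H' (U f) := by
  ext x
  rw [hU, hH f x, lp.coeFn_sub, Pi.sub_apply, lp.coeFn_smul, Pi.smul_apply, hH' (U f) x]
  simp only [hU, sgn_add, sgn_sub]
  push_cast
  have h1 : ∑ i : Fin d, (2 * ((sgn x : ℂ) * f x) - -(sgn x : ℂ) * f (x + Pi.single i 1) -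
      -(sgn x : ℂ) * f (x - Pi.single i 1)) =
      (sgn x : ℂ) * (4 * d * f x - ∑ i : Fin d, (2 * f x - f (x + Pi.single i 1) -
        f (x - Pi.single i 1))) := by
    have h2 : (4 * d * f x : ℂ) = ∑ _i : Fin d, 4 * f x := by
      rw [Finset.sum_const, Finset.card_univ, Fintype.card_fin, nsmul_eq_mul]
      ring
    rw [h2, ← Finset.sum_sub_distrib, Finset.mul_sum]
    refine Finset.sum_congr rfl fun i _ => ?_
    ring
  rw [h1, smul_eq_mul]
  ring

/-- conjugation of the propagator -/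
theorem ev_stag {lam : ℝ} {ω : (Fin d → ℤ) → ℝ} {H H' : L2 d →L[ℂ] L2 d}
    (hH : IsAnderson lam ω H) (hH' : IsAnderson lam (fun x => -ω x) H') (t : ℝ) (f : L2 d) :
    ev H t f = Complex.exp (Complex.I * (-t : ℝ) * (4 * d : ℝ)) • U (ev H' (-t) (U f)) := by
  set u : (L2 d →L[ℂ] L2 d)ˣ := ⟨U, U, by ext1 f; exact U_U hU f, by ext1 f; exact U_U hU f⟩ with hu
  set B : L2 d →L[ℂ] L2 d := H' - (((4 * d : ℝ) : ℝ) : ℂ) • ContinuousLinearMap.id ℂ (L2 d) with hB
  have h1 : (-(t : ℂ) * Complex.I) • H = (u : L2 d →L[ℂ] L2 d) *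
      ((-((-t : ℝ) : ℂ) * Complex.I) • B) * ((u⁻¹ : (L2 d →L[ℂ] L2 d)ˣ) : L2 d →L[ℂ] L2 d) := by
    ext1 g
    have e1 : ((u : L2 d →L[ℂ] L2 d) * ((-((-t : ℝ) : ℂ) * Complex.I) • B) *
        ((u⁻¹ : (L2 d →L[ℂ] L2 d)ˣ) : L2 d →L[ℂ] L2 d)) g =
        U ((-((-t : ℝ) : ℂ) * Complex.I) • B (U g)) := rfl
    rw [e1, map_smul]
    have e2 : U (B (U g)) = -(H g) := by
      have e3 : B (U g) = -(U (H g)) := by
        rw [U_H hU hH hH' g, hB]
        simp only [sub_apply, smul_apply, ContinuousLinearMap.id_apply]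
        push_cast
        abel
      rw [e3, map_neg, U_U hU]
    rw [e2]
    simp only [smul_apply]
    rw [smul_neg, ← neg_smul]
    congr 1
    push_cast
    ring
  have h2 : ev H t f = U (ev B (-t) (U f)) := by
    unfold ev
    let _ : NormedAlgebra ℚ (L2 d →L[ℂ] L2 d) := NormedAlgebra.restrictScalars ℚ ℂ _
    rw [h1, NormedSpace.exp_units_conj]
    rfl
  rw [h2, hB, ev_shift, map_smul]

end

/-- from the lower to the upper band edge -/
theorem upper {lam : ℝ} {ω : (Fin d → ℤ) → ℝ} {H H' K0 : L2 d →L[ℂ] L2 d}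
    (hH : IsAnderson lam ω H) (hH' : IsAnderson lam (fun x => -ω x) H') (hK : IsAnderson 0 0 K0)
    (E t : ℝ) (f : L2 d) : ∃ g : L2 d, ‖g‖ = ‖f‖ ∧ (∀ x, g x = 0 ↔ f x = 0) ∧
      ‖K0 g‖ = ‖(4 * d : ℂ) • f - K0 f‖ ∧
      ‖ev H t f - Complex.exp (-(Complex.I * t * (-E : ℝ))) • ev K0 t f‖ =
        ‖ev H' (-t) g - Complex.exp (-(Complex.I * (-t : ℝ) * E)) • ev K0 (-t) g‖ := by
  obtain ⟨U, hU⟩ := exists_stag d
  have hK' : IsAnderson 0 (fun x => -(0 : (Fin d → ℤ) → ℝ) x) K0 := by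
    have : (fun x => -(0 : (Fin d → ℤ) → ℝ) x) = 0 := by
      funext x; simp
    rw [this]; exact hK
  refine ⟨U f, U_norm hU f, fun x => ?_, ?_, ?_⟩
  · rw [hU, mul_eq_zero, Complex.ofReal_eq_zero]
    constructor
    · rintro (h | h)
      · have := sgn_abs x
        rw [h] at this
        simp at this
      · exact h
    · exact fun h => Or.inr h
  · have h1 := U_H hU hK hK' f
    have h2 : K0 (U f) = U ((4 * d : ℂ) • f - K0 f) := by
      rw [map_sub, map_smul, h1]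
      abel
    rw [h2, U_norm hU]
  · rw [ev_stag hU hH hH' t f, ev_stag hU hK hK' t f]
    rw [smul_comm, ← smul_sub, ← map_smul, ← map_sub, norm_smul, U_norm hU]
    have h3 : ‖Complex.exp (Complex.I * (-t : ℝ) * (4 * d : ℝ))‖ = 1 := by
      rw [show Complex.I * ((-t : ℝ) : ℂ) * ((4 * d : ℝ) : ℂ) = ((-t * (4 * d) : ℝ) : ℂ) * Complex.I by
        push_cast; ring]
      exact Complex.norm_exp_ofReal_mul_I _
    rw [h3, one_mul]
    congr 4
    push_cast
    ring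

end Pool.Agent.V8H99.AD
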