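import Pool.Agent.V8H99.AD.TorOp
import Pool.Agent.H4R2.AE.Exist

/-! Transfer from the torus to `ℤ^d` by finite range of the powers of `H`. -/

set_option autoImplicit false
set_option linter.unusedSectionVars false

open scoped BigOperators ComplexConjugate ENNReal
open MeasureTheory

namespace Pool.Agent.V8H99.AD

open Pool.Agent.H4R2.AE

section L2facts
variable {d : ℕ}

theorem two_toReal : 0 < (2 : ℝ≥0∞).toReal := by norm_num

theorem l2_summable (f : L2 d) : Summable fun x => ‖f x‖ ^ 2 := by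
  have := (lp.memℓp f).summable two_toReal
  simpa using this

theorem l2_norm_sq (f : L2 d) : ‖f‖ ^ 2 = ∑' x, ‖f x‖ ^ 2 := by
  have := lp.norm_rpow_eq_tsum two_toReal f
  simpa using this

theorem l2_le {f g : L2 d} (e : (Fin d → ℤ) → (Fin d → ℤ)) (he : Function.Injective e) (C : ℝ)
    (hC : 0 ≤ C) (h : ∀ x, ‖g x‖ ≤ C * ‖f (e x)‖) : ‖g‖ ≤ C * ‖f‖ := by
  have h1 : ‖g‖ ^ 2 ≤ (C * ‖f‖) ^ 2 := by
    rw [mul_pow, l2_norm_sq, l2_norm_sq]
    calc ∑' x, ‖g x‖ ^ 2 ≤ ∑' x, C ^ 2 * ‖f (e x)‖ ^ 2 := by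
          refine Summable.tsum_le_tsum (fun x => ?_) (l2_summable g)
            (((l2_summable f).comp_injective he).mul_left _)
          rw [← mul_pow]
          exact pow_le_pow_left₀ (norm_nonneg _) (h x) 2
      _ = C ^ 2 * ∑' x, ‖f (e x)‖ ^ 2 := tsum_mul_left
      _ ≤ C ^ 2 * ∑' x, ‖f x‖ ^ 2 :=
          mul_le_mul_of_nonneg_left
            (tsum_comp_le_tsum_of_inj (l2_summable f) (fun x => by positivity) he) (sq_nonneg C)
  exact (abs_le_of_sq_le_sq' h1 (by positivity)).2

/-- norm bound on `ℤ^d` -/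
theorem anderson_norm {lam : ℝ} {ω : (Fin d → ℤ) → ℝ} {H : L2 d →L[ℂ] L2 d}
    (hH : IsAnderson lam ω H) (hω : ∀ x, |lam * ω x| ≤ 1) : ‖H‖ ≤ 4 * d + 1 := by
  refine ContinuousLinearMap.opNorm_le_bound _ (by positivity) fun f => ?_
  obtain ⟨M, hM⟩ := Exist.exists_op (ι := Fin d → ℤ) id Function.injective_id
    (fun x => ((2 * d + lam * ω x : ℝ) : ℂ)) (2 * d + 1) (by positivity) (by
      intro x
      rw [Complex.norm_real, Real.norm_eq_abs]
      refine (abs_add_le _ _).trans ?_
      rw [abs_of_nonneg (by positivity : (0 : ℝ) ≤ 2 * d)]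
      gcongr
      exact hω x)
  have hS : ∀ v : Fin d → ℤ, ∃ S : L2 d →L[ℂ] L2 d, ∀ f x, (S f) x = f (x + v) := by
    intro v
    obtain ⟨S, hS⟩ := Exist.exists_op (ι := Fin d → ℤ) (fun x => x + v) (add_left_injective v)
      (fun _ => 1) 1 zero_le_one (fun x => by simp)
    exact ⟨S, fun f x => by rw [hS]; simp⟩
  choose S hS using hS
  have h1 : H f = M f - ∑ i : Fin d, (S (Pi.single i 1) f + S (-Pi.single i 1) f) := by
    ext x
    rw [hH f x, lp.coeFn_sub, Pi.sub_apply, lp.coeFn_sum, Finset.sum_apply, hM]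
    have e1 : ∀ i : Fin d, (S (Pi.single i 1) f + S (-Pi.single i 1) f : L2 d) x =
        f (x + Pi.single i 1) + f (x - Pi.single i 1) := by
      intro i
      rw [lp.coeFn_add, Pi.add_apply, hS, hS, ← sub_eq_add_neg]
    simp only [e1, id]
    rw [Finset.sum_sub_distrib, Finset.sum_sub_distrib, Finset.sum_add_distrib]
    simp
    ring
  have hMn : ‖M f‖ ≤ (2 * d + 1) * ‖f‖ := by
    refine l2_le id Function.injective_id _ (by positivity) fun x => ?_
    rw [hM, norm_mul]
    refine mul_le_mul_of_nonneg_right ?_ (norm_nonneg _)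
    rw [Complex.norm_real, Real.norm_eq_abs]
    refine (abs_add_le _ _).trans ?_
    rw [abs_of_nonneg (by positivity : (0 : ℝ) ≤ 2 * d)]
    gcongr
    exact hω x
  have hSn : ∀ v, ‖S v f‖ ≤ ‖f‖ := by
    intro v
    have := l2_le (f := f) (g := S v f) (fun x => x + v) (add_left_injective v) 1 zero_le_one
      (fun x => by rw [hS, one_mul])
    simpa using this
  rw [h1]
  calc ‖M f - ∑ i : Fin d, (S (Pi.single i 1) f + S (-Pi.single i 1) f)‖
      ≤ ‖M f‖ + ‖∑ i : Fin d, (S (Pi.single i 1) f + S (-Pi.single i 1) f)‖ := norm_sub_le _ _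
    _ ≤ (2 * d + 1) * ‖f‖ + ∑ i : Fin d, (‖f‖ + ‖f‖) := by
        refine add_le_add hMn ((norm_sum_le _ _).trans (Finset.sum_le_sum fun i _ => ?_))
        exact (norm_add_le _ _).trans (add_le_add (hSn _) (hSn _))
    _ = (4 * d + 1) * ‖f‖ := by simp; ring

/-- self-adjointness on `ℤ^d` -/
theorem anderson_sa {lam : ℝ} {ω : (Fin d → ℤ) → ℝ} {H : L2 d →L[ℂ] L2 d}
    (hH : IsAnderson lam ω H) : IsSelfAdjoint H := by
  rw [ContinuousLinearMap.isSelfAdjoint_iff_isSymmetric]
  intro f g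
  show inner ℂ (H f) g = inner ℂ f (H g)
  have hS : ∀ v : Fin d → ℤ, ∃ S : L2 d →L[ℂ] L2 d, ∀ f x, (S f) x = f (x + v) := by
    intro v
    obtain ⟨S, hS⟩ := Exist.exists_op (ι := Fin d → ℤ) (fun x => x + v) (add_left_injective v)
      (fun _ => 1) 1 zero_le_one (fun x => by simp)
    exact ⟨S, fun f x => by rw [hS]; simp⟩
  choose S hS using hS
  -- the diagonal part
  set D : L2 d →L[ℂ] L2 d := H + ∑ i : Fin d, (S (Pi.single i 1) + S (-Pi.single i 1)) with hD
  have hDa : ∀ (f : L2 d) x, (D f) x = ((2 * d + lam * ω x : ℝ) : ℂ) * f x := by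
    intro f x
    have e0 : D f = H f + ∑ i : Fin d, (S (Pi.single i 1) f + S (-Pi.single i 1) f) := by
      rw [hD]; simp
    have e1 : ∀ i : Fin d, (S (Pi.single i 1) f + S (-Pi.single i 1) f : L2 d) x =
        f (x + Pi.single i 1) + f (x - Pi.single i 1) := by
      intro i
      rw [lp.coeFn_add, Pi.add_apply, hS, hS, ← sub_eq_add_neg]
    rw [e0, lp.coeFn_add, Pi.add_apply, lp.coeFn_sum, Finset.sum_apply, hH f x]
    simp only [e1]
    rw [Finset.sum_sub_distrib, Finset.sum_sub_distrib, Finset.sum_add_distrib]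
    simp
    ring
  have hDs : inner ℂ (D f) g = (inner ℂ f (D g) : ℂ) := by
    rw [lp.inner_eq_tsum, lp.inner_eq_tsum]
    refine tsum_congr fun x => ?_
    rw [hDa, hDa, RCLike.inner_apply, RCLike.inner_apply, map_mul, Complex.conj_ofReal]
    ring
  have hSs : ∀ v (f g : L2 d), inner ℂ (S v f) g = (inner ℂ f (S (-v) g) : ℂ) := by
    intro v f g
    rw [lp.inner_eq_tsum, lp.inner_eq_tsum]
    rw [← (Equiv.addRight (-v)).tsum_eq fun x => inner ℂ (S v f x) (g x)]
    refine tsum_congr fun x => ?_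
    simp only [Equiv.coe_addRight, hS]
    congr 2
    simp
  have hHf : ∀ f : L2 d, H f = D f - ∑ i : Fin d, (S (Pi.single i 1) f + S (-Pi.single i 1) f) := by
    intro f
    rw [hD]; simp
  rw [hHf f, hHf g, inner_sub_left, inner_sub_right, hDs, sum_inner, inner_sum]
  congr 1
  refine Finset.sum_congr rfl fun i _ => ?_
  rw [inner_add_left, inner_add_right, hSs, hSs, neg_neg, add_comm]

end L2facts

section Box
variable {d L : ℕ} [NeZero L]

/-- representatives of the classes modulo `L`, balanced -/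
noncomputable def rep (y : T d L) : Fin d → ℤ := fun i => (y i).valMinAbs

theorem rep_injective : Function.Injective (rep : T d L → Fin d → ℤ) := by
  intro y y' h
  funext i
  exact ZMod.injective_valMinAbs (congrFun h i)

/-- supported in the box of radius `n` -/
def SuppIn (f : (Fin d → ℤ) → ℂ) (n : ℕ) : Prop := ∀ x, f x ≠ 0 → ∀ i, |x i| ≤ n

theorem rep_surj {x : Fin d → ℤ} (hx : ∀ i, 2 * |x i| < L) : ∃ y : T d L, rep y = x := by
  refine ⟨fun i => (x i : ZMod L), ?_⟩
  funext i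
  show ((x i : ℤ) : ZMod L).valMinAbs = x i
  rw [ZMod.valMinAbs_spec]
  refine ⟨rfl, ?_⟩
  have h1 := hx i
  constructor
  · have := neg_abs_le (x i)
    omega
  · have := le_abs_self (x i)
    omega

/-- restriction to the torus -/
noncomputable def tau (L : ℕ) [NeZero L] (f : L2 d) : XT d L := WithLp.toLp 2 fun y => f (rep y)

theorem tau_apply (f : L2 d) (y : T d L) : (tau L f) y = f (rep y) := rfl

theorem tau_norm_le (f : L2 d) : ‖tau L f‖ ≤ ‖f‖ := by
  have h : ‖tau L f‖ ^ 2 ≤ ‖f‖ ^ 2 := by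
    rw [norm_sq_eq_nsq, l2_norm_sq]
    unfold nsq
    have h1 : ∑ y : T d L, ‖f (rep y)‖ ^ 2 = ∑' y : T d L, ‖f (rep y)‖ ^ 2 := (tsum_fintype _).symm
    calc ∑ y : T d L, ‖(tau L f) y‖ ^ 2 = ∑ y : T d L, ‖f (rep y)‖ ^ 2 := rfl
      _ = ∑' y : T d L, ‖f (rep y)‖ ^ 2 := h1
      _ ≤ _ := tsum_comp_le_tsum_of_inj (l2_summable f) (fun x => by positivity) rep_injective
  exact (abs_le_of_sq_le_sq' h (norm_nonneg _)).2

theorem tau_norm_eq {f : L2 d} {n : ℕ} (hf : SuppIn f n) (hn : 2 * n < L) : ‖tau L f‖ = ‖f‖ := by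
  have h : ‖tau L f‖ ^ 2 = ‖f‖ ^ 2 := by
    rw [norm_sq_eq_nsq, l2_norm_sq]
    unfold nsq
    have h1 : ∑ y : T d L, ‖f (rep y)‖ ^ 2 = ∑' y : T d L, ‖f (rep y)‖ ^ 2 := (tsum_fintype _).symm
    calc ∑ y : T d L, ‖(tau L f) y‖ ^ 2 = ∑ y : T d L, ‖f (rep y)‖ ^ 2 := rfl
      _ = ∑' y : T d L, ‖f (rep y)‖ ^ 2 := h1
      _ = ∑' x, ‖f x‖ ^ 2 := by
          refine Function.Injective.tsum_eq (g := (rep : T d L → Fin d → ℤ))
            (f := fun x => ‖f x‖ ^ 2) rep_injective fun x hx => ?_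
          have hx0 : f x ≠ 0 := by
            intro h0
            apply hx
            simp [h0]
          obtain ⟨y, hy⟩ := rep_surj (L := L) (x := x) (fun i => by
            have := hf x hx0 i
            omega)
          exact ⟨y, hy⟩
  have h1 := congrArg Real.sqrt h
  rwa [Real.sqrt_sq (norm_nonneg _), Real.sqrt_sq (norm_nonneg _)] at h1

/-- one step of the cyclic shift -/
theorem step (a : ZMod L) (s : ℤ) (hs : s = 1 ∨ s = -1) :
    (a + (s : ZMod L)).valMinAbs = a.valMinAbs + s ∨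
      ((L : ℤ) ≤ 2 * |a.valMinAbs + s| ∧ (L : ℤ) ≤ 2 * |(a + (s : ZMod L)).valMinAbs| + 2) := by
  have hm := a.valMinAbs_mem_Ioc
  set m := a.valMinAbs with hmdef
  have hL : (1 : ℤ) ≤ L := by exact_mod_cast NeZero.one_le
  by_cases h1 : (m + s) * 2 ∈ Set.Ioc (-L : ℤ) L
  · left
    rw [ZMod.valMinAbs_spec]
    refine ⟨?_, h1⟩
    push_cast
    rw [hmdef, ZMod.coe_valMinAbs]
  · right
    rcases hs with rfl | rfl
    · have h2 : (L : ℤ) < (m + 1) * 2 := by
        by_contra h3
        exact h1 ⟨by have := hm.1; omega, by omega⟩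
      have h4 : (a + ((1 : ℤ) : ZMod L)).valMinAbs = m + 1 - L := by
        rw [ZMod.valMinAbs_spec]
        refine ⟨?_, ?_, ?_⟩
        · push_cast
          rw [hmdef, ZMod.coe_valMinAbs]
          simp
        · have := hm.2; omega
        · have := hm.2; omega
      have hm2 := hm.2
      rw [h4]
      constructor
      · rw [abs_of_nonneg (by omega)]; omega
      · have := neg_abs_le (m + 1 - (L : ℤ))
        omega
    · have h2 : (m + -1) * 2 ≤ -(L : ℤ) := by
        by_contra h3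
        exact h1 ⟨by omega, by have := hm.2; omega⟩
      have h4 : (a + ((-1 : ℤ) : ZMod L)).valMinAbs = m + -1 + L := by
        rw [ZMod.valMinAbs_spec]
        refine ⟨?_, ?_, ?_⟩
        · push_cast
          rw [hmdef, ZMod.coe_valMinAbs]
          simp
        · have := hm.1; omega
        · have := hm.1; omega
      have hm1 := hm.1
      rw [h4]
      constructor
      · have := neg_abs_le (m + -1)
        omega
      · have := le_abs_self (m + -1 + (L : ℤ))
        omega

theorem supp_zero {f : (Fin d → ℤ) → ℂ} {n : ℕ} (hf : SuppIn f n) {x : Fin d → ℤ} {i : Fin d}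
    (h : (n : ℤ) < |x i|) : f x = 0 := by
  by_contra h0
  have := hf x h0 i
  omega

theorem rep_shift {f : (Fin d → ℤ) → ℂ} {n : ℕ} (hf : SuppIn f n) (hn : 2 * (n + 1) < L)
    (y : T d L) (i : Fin d) (s : ℤ) (hs : s = 1 ∨ s = -1) :
    f (rep (y + Pi.single i (s : ZMod L))) = f (rep y + Pi.single i s) := by
  rcases step (y i) s hs with h | ⟨h1, h2⟩
  · congr 1
    funext j
    by_cases hj : j = i
    · subst hj
      simp [rep, h]
    · simp [rep, hj]
  · have e1 : f (rep (y + Pi.single i (s : ZMod L))) = 0 := by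
      refine supp_zero hf (i := i) ?_
      simp only [rep, Pi.add_apply, Pi.single_eq_same]
      omega
    have e2 : f (rep y + Pi.single i s) = 0 := by
      refine supp_zero hf (i := i) ?_
      simp only [rep, Pi.add_apply, Pi.single_eq_same]
      omega
    rw [e1, e2]

theorem tau_H {lam : ℝ} {ω : (Fin d → ℤ) → ℝ} {H : L2 d →L[ℂ] L2 d} (hH : IsAnderson lam ω H)
    {f : L2 d} {n : ℕ} (hf : SuppIn f n) (hn : 2 * (n + 1) < L) :
    tau L (H f) = HC lam (fun y : T d L => ω (rep y)) (tau L f) := by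
  ext y
  show (H f) (rep y) = (HC lam (fun y : T d L => ω (rep y)) (tau L f)) y
  rw [hH f (rep y), HC_apply, tau_apply]
  congr 1
  unfold Bf
  refine Finset.sum_congr rfl fun i _ => ?_
  have h1 := rep_shift hf hn y i 1 (Or.inl rfl)
  have h2 := rep_shift hf hn y i (-1) (Or.inr rfl)
  simp only [tau_apply]
  rw [show (y - Pi.single i 1 : T d L) = y + Pi.single i (((-1 : ℤ)) : ZMod L) by
    rw [sub_eq_add_neg, ← Pi.single_neg]; simp, h2]
  rw [show (y + Pi.single i 1 : T d L) = y + Pi.single i (((1 : ℤ)) : ZMod L) by simp, h1]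
  rw [Pi.single_neg, ← sub_eq_add_neg]

theorem supp_H {lam : ℝ} {ω : (Fin d → ℤ) → ℝ} {H : L2 d →L[ℂ] L2 d} (hH : IsAnderson lam ω H)
    {f : L2 d} {n : ℕ} (hf : SuppIn f n) : SuppIn (H f) (n + 1) := by
  intro x hx j
  by_contra hj
  push Not at hj
  push_cast at hj
  apply hx
  rw [hH f x]
  have h0 : f x = 0 := supp_zero hf (i := j) (by omega)
  rw [h0]
  have h1 : ∀ i : Fin d, (2 * (0 : ℂ) - f (x + Pi.single i 1) - f (x - Pi.single i 1)) = 0 := by
    intro i
    have e1 : f (x + Pi.single i 1) = 0 := by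
      refine supp_zero hf (i := j) ?_
      by_cases hij : j = i
      · subst hij
        simp only [Pi.add_apply, Pi.single_eq_same]
        have := abs_sub_abs_le_abs_sub (x j) (-1)
        simp only [sub_neg_eq_add, abs_neg, abs_one] at this
        omega
      · simp only [Pi.add_apply, Pi.single_apply, if_neg hij, add_zero]
        omega
    have e2 : f (x - Pi.single i 1) = 0 := by
      refine supp_zero hf (i := j) ?_
      by_cases hij : j = i
      · subst hij
        simp only [Pi.sub_apply, Pi.single_eq_same]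
        have := abs_sub_abs_le_abs_sub (x j) 1
        simp only [abs_one] at this
        omega
      · simp only [Pi.sub_apply, Pi.single_apply, if_neg hij, sub_zero]
        omega
    rw [e1, e2]
    simp
  rw [Finset.sum_eq_zero fun i _ => h1 i, mul_zero, add_zero]

theorem pow_H {lam : ℝ} {ω : (Fin d → ℤ) → ℝ} {H : L2 d →L[ℂ] L2 d} (hH : IsAnderson lam ω H)
    {f : L2 d} {R : ℕ} (hf : SuppIn f R) : ∀ n : ℕ, SuppIn ((H ^ n) f) (R + n) := by
  intro n
  induction n with
  | zero => simpa using hf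
  | succ n ih =>
    have : (H ^ (n + 1)) f = H ((H ^ n) f) := by
      rw [pow_succ']
      rfl
    rw [this]
    exact supp_H hH ih

theorem tau_pow {lam : ℝ} {ω : (Fin d → ℤ) → ℝ} {H : L2 d →L[ℂ] L2 d} (hH : IsAnderson lam ω H)
    {f : L2 d} {R : ℕ} (hf : SuppIn f R) : ∀ n : ℕ, 2 * (R + n) < L →
    tau L ((H ^ n) f) = (HC lam (fun y : T d L => ω (rep y)) ^ n) (tau L f) := by
  intro n
  induction n with
  | zero => intro _; simp
  | succ n ih =>
    intro h
    have e1 : (H ^ (n + 1)) f = H ((H ^ n) f) := by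
      rw [pow_succ']
      rfl
    have e2 : (HC lam (fun y : T d L => ω (rep y)) ^ (n + 1)) (tau L f) =
        HC lam (fun y : T d L => ω (rep y)) ((HC lam (fun y : T d L => ω (rep y)) ^ n) (tau L f)) := by
      rw [pow_succ']
      rfl
    rw [e1, e2, ← ih (by omega)]
    exact tau_H hH (pow_H hH hf n) (by omega)

theorem HC_norm {lam : ℝ} {V : T d L → ℝ} (hV : ∀ x, |lam * V x| ≤ 1) :
    ‖(HC lam V : XT d L →L[ℂ] XT d L)‖ ≤ 4 * d + 1 := by
  refine ContinuousLinearMap.opNorm_le_bound _ (by positivity) fun f => ?_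
  set Sh : T d L → XT d L := fun v => WithLp.toLp 2 fun x => f (x + v) with hSh
  have hn : ∀ v, ‖Sh v‖ = ‖f‖ := by
    intro v
    rw [norm_eq_nsq, norm_eq_nsq]
    congr 1
    unfold nsq
    exact Equiv.sum_comp (Equiv.addRight v) (fun x => ‖f x‖ ^ 2)
  have h1 : HC lam V f = Mu (fun x => 2 * d + lam * V x) f -
      ∑ i : Fin d, (Sh (Pi.single i 1) + Sh (-Pi.single i 1)) := by
    ext x
    show (HC lam V f) x = (Mu (fun x => 2 * d + lam * V x) f) x -
      (∑ i : Fin d, (Sh (Pi.single i 1) + Sh (-Pi.single i 1))) x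
    have e1 : (∑ i : Fin d, (Sh (Pi.single i 1) + Sh (-Pi.single i 1))) x =
        ∑ i : Fin d, (f (x + Pi.single i 1) + f (x - Pi.single i 1)) := by
      rw [WithLp.ofLp_sum, Finset.sum_apply]
      refine Finset.sum_congr rfl fun i _ => ?_
      show f (x + Pi.single i 1) + f (x + -Pi.single i 1) = _
      rw [← sub_eq_add_neg]
    rw [e1, HC_apply, Mu_apply]
    unfold Bf
    rw [Finset.sum_sub_distrib, Finset.sum_sub_distrib, Finset.sum_add_distrib]
    simp
    ring
  rw [h1]
  calc _ ≤ ‖Mu (fun x => 2 * d + lam * V x) f‖ +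
        ‖∑ i : Fin d, (Sh (Pi.single i 1) + Sh (-Pi.single i 1))‖ := norm_sub_le _ _
    _ ≤ (2 * d + 1) * ‖f‖ + ∑ i : Fin d, (‖f‖ + ‖f‖) := by
        refine add_le_add ?_ ((norm_sum_le _ _).trans (Finset.sum_le_sum fun i _ => ?_))
        · refine Mu_norm_le _ _ (by positivity) (fun x => ?_) f
          refine (abs_add_le _ _).trans ?_
          rw [abs_of_nonneg (by positivity : (0 : ℝ) ≤ 2 * d)]
          gcongr
          exact hV x
        · refine (norm_add_le _ _).trans ?_
          rw [hn, hn]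
    _ = (4 * d + 1) * ‖f‖ := by simp; ring

end Box

end Pool.Agent.V8H99.AD
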